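import Mathlib

/-!
HAP part B, section LOCAL (helper69): the numerical contradiction.
-/

namespace Pool.Agent.Lib.HBP.L

theorem final_numeric {H H' K ρ δ r q E Yv τ m mK : ℝ} (hK : 1 ≤ K) (hH' : 1 ≤ H')
    (hH : H = K * H') (hm : 0 < m) (hmK : m ≤ K * mK) (hρ : 1 / (2 * (10 ^ 26 * H ^ 3)) ≤ ρ)
    (hδ0 : 0 ≤ δ) (hδ : 10 ^ 48 * K ^ 2 * H ^ 4 * δ ≤ 1)
    (hr : 10 ^ 48 * K ^ 2 * H ^ 4 * r ≤ 1)
    (hq : 10 ^ 48 * K ^ 2 * H ^ 4 * q ≤ 1) (hE : 10 ^ 4 * E ≤ H')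
    (hτ0 : 0 < τ) (hτ : 40 * K ≤ τ * H ^ 3) (hY : Yv * τ ≤ 8 * ρ * m)
    (main : ρ * H * mK / 160 ≤ 65 * √(δ * m * Yv) + 100 * m * (r + δ) + 4 * m * q +
      4 * ρ * E * m + 96 * 10 ^ 5 * (10 ^ 10 * K) * H ^ 2 * (δ * m)) : False := by
  have hK0 : 0 < K := by linarith
  have hH'0 : 0 < H' := by linarith
  have hHpos : 0 < H := by rw [hH]; positivity
  have hH1 : 1 ≤ H := by rw [hH]; nlinarith
  obtain ⟨e, he⟩ : ∃ e, e = 1 / (K * H ^ 2) := ⟨_, rfl⟩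
  have hKH : 0 < K * H ^ 2 := by positivity
  have he0 : 0 < e := by rw [he]; positivity
  have heK : K * H ^ 2 * e = 1 := by rw [he]; field_simp
  have he1 : e ≤ 1 := by
    have : 1 ≤ K * H ^ 2 := by nlinarith [one_le_pow₀ (n := 2) hH1]
    rw [he, div_le_one hKH]
    exact this
  have conv : ∀ x : ℝ, 10 ^ 48 * K ^ 2 * H ^ 4 * x ≤ 1 → 10 ^ 48 * x ≤ e ^ 2 := by
    intro x hx
    have h1 := mul_le_mul_of_nonneg_left hx (sq_nonneg e)
    have h2 : e ^ 2 * (10 ^ 48 * K ^ 2 * H ^ 4 * x) = (K * H ^ 2 * e) ^ 2 * (10 ^ 48 * x) := by ring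
    rw [h2, heK] at h1
    linarith
  have dδ := conv δ hδ
  have dr := conv r hr
  have dq := conv q hq
  have hee : e ^ 2 ≤ e := by nlinarith
  have hρ0 : 0 < ρ := lt_of_lt_of_le (by positivity) hρ
  -- g
  obtain ⟨g, hg⟩ : ∃ g, g = ρ * H' * m := ⟨_, rfl⟩
  have hg0 : 0 < g := by rw [hg]; positivity
  have hge : m * e ≤ 2 * 10 ^ 26 * g := by
    have h1 : H' / H ^ 3 = e := by
      rw [he, hH]
      field_simp
    have h2 : 1 / (2 * (10 ^ 26 * H ^ 3)) * (H' * m) ≤ ρ * (H' * m) :=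
      mul_le_mul_of_nonneg_right hρ (by positivity)
    have h3 : 1 / (2 * (10 ^ 26 * H ^ 3)) * (H' * m) = 1 / (2 * 10 ^ 26) * (m * (H' / H ^ 3)) := by
      field_simp
    rw [h3, h1] at h2
    rw [hg]
    nlinarith
  have hleft : g / 160 ≤ ρ * H * mK / 160 := by
    have h1 : ρ * H * mK = ρ * H' * (K * mK) := by rw [hH]; ring
    rw [h1, hg]
    have h2 : ρ * H' * m ≤ ρ * H' * (K * mK) := mul_le_mul_of_nonneg_left hmK (by positivity)
    linarith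
  -- first term
  have t1 : √(δ * m * Yv) ≤ g / 10 ^ 5 := by
    refine Real.sqrt_le_iff.2 ⟨by positivity, ?_⟩
    have h1 : Yv ≤ 8 * ρ * m / τ := by rw [le_div_iff₀ hτ0]; exact hY
    have h2 : δ * m * Yv ≤ δ * m * (8 * ρ * m / τ) := mul_le_mul_of_nonneg_left h1 (by positivity)
    refine h2.trans ?_
    have h3 : 8 * 10 ^ 10 * δ ≤ ρ * H' ^ 2 * τ := by
      have h4 : 1 / (2 * (10 ^ 26 * H ^ 3)) * (H' ^ 2 * τ) ≤ ρ * (H' ^ 2 * τ) :=
        mul_le_mul_of_nonneg_right hρ (by positivity)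
      have h5 : 20 * (K * H' ^ 2) / (10 ^ 26 * H ^ 6) ≤ 1 / (2 * (10 ^ 26 * H ^ 3)) * (H' ^ 2 * τ) := by
        rw [div_le_iff₀ (by positivity)]
        have h6 : 1 / (2 * (10 ^ 26 * H ^ 3)) * (H' ^ 2 * τ) * (10 ^ 26 * H ^ 6) =
            H' ^ 2 * (τ * H ^ 3) / 2 := by field_simp
        rw [h6]
        nlinarith [mul_le_mul_of_nonneg_left hτ (sq_nonneg H')]
      have h7 : 20 * (K * H' ^ 2) / (10 ^ 26 * H ^ 6) = 20 / 10 ^ 26 * (K * e ^ 2) := by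
        rw [he, hH]
        field_simp
      rw [h7] at h5
      have h8 : e ^ 2 ≤ K * e ^ 2 := by nlinarith [sq_nonneg e]
      nlinarith [sq_nonneg e]
    have h9 : δ * m * (8 * ρ * m / τ) = (8 * 10 ^ 10 * δ) * (ρ * m ^ 2 / (10 ^ 10 * τ)) := by
      field_simp
    have h10 : (g / 10 ^ 5) ^ 2 = (ρ * H' ^ 2 * τ) * (ρ * m ^ 2 / (10 ^ 10 * τ)) := by
      rw [hg]
      field_simp
    rw [h9, h10]
    exact mul_le_mul_of_nonneg_right h3 (by positivity)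
  have t2 : 100 * m * (r + δ) ≤ g / 10 ^ 5 := by
    have h1 : 10 ^ 48 * (m * (r + δ)) ≤ m * (2 * e) := by
      have : 10 ^ 48 * (r + δ) ≤ 2 * e := by linarith
      calc 10 ^ 48 * (m * (r + δ)) = m * (10 ^ 48 * (r + δ)) := by ring
        _ ≤ m * (2 * e) := mul_le_mul_of_nonneg_left this hm.le
    linarith
  have t3 : 4 * m * q ≤ g / 10 ^ 5 := by
    have h1 : 10 ^ 48 * (m * q) ≤ m * e := by
      have : 10 ^ 48 * q ≤ e := by linarith
      calc 10 ^ 48 * (m * q) = m * (10 ^ 48 * q) := by ring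
        _ ≤ m * e := mul_le_mul_of_nonneg_left this hm.le
    linarith
  have t4 : 4 * ρ * E * m ≤ g / 2000 := by
    have h1 : ρ * m * (10 ^ 4 * E) ≤ ρ * m * H' := mul_le_mul_of_nonneg_left hE (by positivity)
    rw [hg]
    linarith
  have t5 : 96 * 10 ^ 5 * (10 ^ 10 * K) * H ^ 2 * (δ * m) ≤ g / 10 ^ 4 := by
    have h1 : (K * H ^ 2) * (10 ^ 48 * δ) ≤ e := by
      have h2 := mul_le_mul_of_nonneg_left dδ hKH.le
      have h3 : K * H ^ 2 * e ^ 2 = e := by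
        calc K * H ^ 2 * e ^ 2 = (K * H ^ 2 * e) * e := by ring
          _ = e := by rw [heK, one_mul]
      linarith
    have h2 := mul_le_mul_of_nonneg_right h1 hm.le
    have h3 : K * H ^ 2 * (10 ^ 48 * δ) * m = 10 ^ 48 * (K * H ^ 2 * (δ * m)) := by ring
    rw [h3] at h2
    have h4 : 96 * 10 ^ 5 * (10 ^ 10 * K) * H ^ 2 * (δ * m) =
        96 * 10 ^ 15 * (K * H ^ 2 * (δ * m)) := by ring
    rw [h4]
    have h5 : e * m = m * e := mul_comm _ _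
    linarith
  linarith

end Pool.Agent.Lib.HBP.L
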