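import Mathlib
import Pool.Agent.Lib.HBP.Defs

/-!
HAP part B, section LOCAL (helper69): the sum of `Th V` over a cell is at most `2 √(B l)`.

PROOF.  With `g y = √y` the sum of `th0 (v/B - c)` over `v ∈ [lo, lo+l)` telescopes to
`2 B^(-1/2) ∑_{i ≤ B} [(g (R_i - cB) - g (R_i - (c+1)B)) - (g (L_i - cB) - g (L_i - (c+1)B))]`,
`R_i = lo+l-1+i`, `L_i = lo-1+i`; for fixed `i` the sum over `c ∈ V` is a sum of differences
`f c - f (c+1)` of the unimodal function `f c = √(R_i/B - c) - √(L_i/B - c) ∈ [0, √(l/B)]`.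
-/

open Finset

namespace Pool.Agent.Lib.HBP.L

/-- sums of differences of a unimodal function. -/
theorem unimodal_sum (f : ℤ → ℝ) {m : ℝ} (h0 : ∀ c, 0 ≤ f c) (hm : ∀ c, f c ≤ m) (c0 : ℤ)
    (hinc : ∀ c < c0, f c ≤ f (c + 1)) (hdec : ∀ c > c0, f (c + 1) ≤ f c) (V : Finset ℤ) :
    |∑ c ∈ V, (f c - f (c + 1))| ≤ m := by
  -- reduce to a unimodal function without exceptional index
  have key : ∀ c1 : ℤ, (∀ c < c1, f c ≤ f (c + 1)) → (∀ c ≥ c1, f (c + 1) ≤ f c) →
      |∑ c ∈ V, (f c - f (c + 1))| ≤ m := by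
    intro c1 h1 h2
    have tel : ∀ (a : ℤ) (n : ℕ), ∑ c ∈ Finset.Ico a (a + n), (f c - f (c + 1)) =
        f a - f (a + n) := by
      intro a n
      induction n with
      | zero => simp
      | succ n ih =>
        have : Finset.Ico a (a + ((n + 1 : ℕ) : ℤ)) = insert (a + (n : ℤ)) (Finset.Ico a (a + n)) := by
          ext z
          simp only [Finset.mem_Ico, Finset.mem_insert]
          push_cast
          omega
        rw [this, Finset.sum_insert (by simp), ih]
        push_cast
        rw [show a + ((n : ℤ) + 1) = a + n + 1 by ring]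
        ring
    obtain ⟨N, hN⟩ : ∃ N : ℕ, ∀ c ∈ V, |c - c1| < N := by
      refine ⟨(∑ c ∈ V, (c - c1).natAbs) + 1, fun c hc => ?_⟩
      have := Finset.single_le_sum (f := fun c => (c - c1).natAbs) (fun _ _ => Nat.zero_le _) hc
      have h3 : |c - c1| = ((c - c1).natAbs : ℤ) := (Int.natCast_natAbs _).symm
      rw [h3]
      exact_mod_cast Nat.lt_succ_of_le this
    have e1 : ∑ c ∈ V, (f c - f (c + 1)) = ∑ c ∈ V with c < c1, (f c - f (c + 1)) +
        ∑ c ∈ V with ¬ c < c1, (f c - f (c + 1)) := (Finset.sum_filter_add_sum_filter_not _ _ _).symm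
    have l1 : ∑ c ∈ V with c < c1, (f c - f (c + 1)) ≤ 0 :=
      Finset.sum_nonpos fun c hc => by
        have := h1 c (Finset.mem_filter.1 hc).2
        linarith
    have l2 : 0 ≤ ∑ c ∈ V with ¬ c < c1, (f c - f (c + 1)) :=
      Finset.sum_nonneg fun c hc => by
        have := h2 c (not_lt.1 (Finset.mem_filter.1 hc).2)
        linarith
    have l3 : ∑ c ∈ V with ¬ c < c1, (f c - f (c + 1)) ≤ m := by
      have hsub : (V.filter fun c => ¬ c < c1) ⊆ Finset.Ico c1 (c1 + N) := by
        intro c hc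
        have h3 := (Finset.mem_filter.1 hc)
        have h4 := hN c h3.1
        rw [abs_lt] at h4
        rw [Finset.mem_Ico]
        constructor
        · exact not_lt.1 h3.2
        · omega
      have h5 := Finset.sum_le_sum_of_subset_of_nonneg (f := fun c => f c - f (c + 1)) hsub
        (fun c hc _ => by
          have := h2 c (Finset.mem_Ico.1 hc).1
          linarith)
      rw [tel] at h5
      have := h0 (c1 + N)
      have := hm c1
      linarith
    have l4 : -m ≤ ∑ c ∈ V with c < c1, (f c - f (c + 1)) := by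
      have hsub : (V.filter fun c => c < c1) ⊆ Finset.Ico (c1 - N) (c1 - N + N) := by
        intro c hc
        have h3 := (Finset.mem_filter.1 hc)
        have h4 := hN c h3.1
        rw [abs_lt] at h4
        rw [Finset.mem_Ico]
        constructor
        · omega
        · have := h3.2
          omega
      have h5 := Finset.sum_le_sum_of_subset_of_nonneg (f := fun c => f (c + 1) - f c) hsub
        (fun c hc _ => by
          have := h1 c (by have := (Finset.mem_Ico.1 hc).2; omega)
          linarith)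
      have h6 := tel (c1 - N) N
      have h7 : ∑ c ∈ Finset.Ico (c1 - N) (c1 - N + N), (f (c + 1) - f c) =
          -∑ c ∈ Finset.Ico (c1 - N) (c1 - N + N), (f c - f (c + 1)) := by
        rw [← Finset.sum_neg_distrib]
        exact Finset.sum_congr rfl fun c _ => by ring
      have h8 : ∑ c ∈ V with c < c1, (f (c + 1) - f c) =
          -∑ c ∈ V with c < c1, (f c - f (c + 1)) := by
        rw [← Finset.sum_neg_distrib]
        exact Finset.sum_congr rfl fun c _ => by ring
      rw [h7, h6, h8] at h5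
      have := h0 (c1 - N)
      have := hm (c1 - N + N)
      linarith
    rw [e1, abs_le]
    constructor <;> linarith
  by_cases h : f (c0 + 1) ≤ f c0
  · refine key c0 hinc fun c hc => ?_
    rcases hc.eq_or_lt with h2 | h2
    · rw [← h2]; exact h
    · exact hdec c h2
  · refine key (c0 + 1) (fun c hc => ?_) (fun c hc => hdec c (by omega))
    rcases (Int.lt_add_one_iff.1 hc).eq_or_lt with h2 | h2
    · rw [h2]; exact (not_le.1 h).le
    · exact hinc c h2

/-- the difference of two square roots is unimodal. -/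
theorem sqrt_diff_sum {l r : ℝ} (hlr : l ≤ r) (V : Finset ℤ) :
    |∑ c ∈ V, ((√(r - c) - √(l - c)) - (√(r - (c + 1)) - √(l - (c + 1))))| ≤ √(r - l) := by
  have h := unimodal_sum (fun c : ℤ => √(r - c) - √(l - c)) (m := √(r - l)) ?_ ?_ ⌊l⌋ ?_ ?_ V
  · have e : ∀ c : ℤ, ((c + 1 : ℤ) : ℝ) = (c : ℝ) + 1 := fun c => by push_cast; ring
    simp only [e] at h
    exact h
  · intro c
    have := Real.sqrt_le_sqrt (show l - c ≤ r - c by linarith)
    linarith
  · intro c
    rcases le_total 0 (l - c) with h | h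
    · have h1 : √(r - c) ≤ √(l - c) + √(r - l) := by
        refine Real.sqrt_le_iff.2 ⟨by positivity, ?_⟩
        have a1 := Real.sq_sqrt h
        have a2 := Real.sq_sqrt (show 0 ≤ r - l by linarith)
        nlinarith [mul_nonneg (Real.sqrt_nonneg (l - c)) (Real.sqrt_nonneg (r - l))]
      linarith
    · rw [Real.sqrt_eq_zero_of_nonpos h]
      have := Real.sqrt_le_sqrt (show r - c ≤ r - l by linarith)
      linarith
  · intro c hc
    have hc1 : ((c + 1 : ℤ) : ℝ) ≤ l := by
      have : c + 1 ≤ ⌊l⌋ := by omega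
      exact Int.le_floor.1 this
    push_cast at hc1 ⊢
    -- √(r-c) - √(l-c) ≤ √(r-c-1) - √(l-c-1)
    rcases hlr.eq_or_lt with h | h
    · rw [h]; linarith
    have p1 : 0 ≤ l - (c + 1) := by linarith
    have p2 : 0 < r - (c + 1) := by linarith
    have a1 := Real.sq_sqrt (show 0 ≤ r - c by linarith)
    have a2 := Real.sq_sqrt (show 0 ≤ l - c by linarith)
    have a3 := Real.sq_sqrt p2.le
    have a4 := Real.sq_sqrt p1
    have b1 := Real.sqrt_nonneg (r - c)
    have b2 := Real.sqrt_nonneg (l - c)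
    have b3 := Real.sqrt_pos.2 p2
    have b4 := Real.sqrt_nonneg (l - (c + 1))
    have m1 : √(r - (c + 1)) ≤ √(r - c) := Real.sqrt_le_sqrt (by linarith)
    have m2 : √(l - (c + 1)) ≤ √(l - c) := Real.sqrt_le_sqrt (by linarith)
    -- (A - B)(A + B) = (C - D)(C + D) = r - l with A ≥ C, B ≥ D
    have e1 : (√(r - c) - √(l - c)) * (√(r - c) + √(l - c)) = r - l := by nlinarith
    have e2 : (√(r - (c + 1)) - √(l - (c + 1))) * (√(r - (c + 1)) + √(l - (c + 1))) = r - l := by
      nlinarith
    have hpos : 0 < √(r - (c + 1)) + √(l - (c + 1)) := by linarith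
    by_contra hcon
    push Not at hcon
    have d1 : 0 < √(r - c) - √(l - c) := by
      have : 0 ≤ √(r - (c + 1)) - √(l - (c + 1)) := by
        have := Real.sqrt_le_sqrt (show l - (c + 1) ≤ r - (c + 1) by linarith)
        linarith
      linarith
    nlinarith [mul_lt_mul_of_pos_right hcon hpos, mul_le_mul_of_nonneg_left
      (show √(r - (c + 1)) + √(l - (c + 1)) ≤ √(r - c) + √(l - c) by linarith) d1.le]
  · intro c hc
    have hc1 : l < c := by
      have : ⌊l⌋ + 1 ≤ c := by omega
      have h2 := Int.lt_floor_add_one l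
      have h3 : ((⌊l⌋ + 1 : ℤ) : ℝ) ≤ c := by exact_mod_cast this
      push_cast at h3
      linarith
    push_cast
    rw [Real.sqrt_eq_zero_of_nonpos (show l - c ≤ 0 by linarith),
      Real.sqrt_eq_zero_of_nonpos (show l - (c + 1) ≤ 0 by linarith)]
    have := Real.sqrt_le_sqrt (show r - (c + 1) ≤ r - c by linarith)
    linarith

/-- partial sums of `th0 (v / B)`. -/
noncomputable def cu (B : ℕ) (M : ℝ) : ℝ :=
  2 * ∑ i ∈ range B, (√((M + (i + 1)) / B) - √((M + (i + 1)) / B - 1))

theorem cu_step (B : ℕ) (hB : 1 ≤ B) (M : ℝ) : cu B (M + 1) - cu B M = th0 ((M + 1) / B) := by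
  have hB0 : (B : ℝ) ≠ 0 := by positivity
  have tel : ∀ f : ℝ → ℝ, ∑ i ∈ range B, (f (M + 1 + (i + 1)) - f (M + (i + 1))) =
      f (M + 1 + B) - f (M + 1) := by
    intro f
    have := Finset.sum_range_sub (fun i : ℕ => f (M + 1 + i)) B
    simp only [Nat.cast_zero, add_zero] at this
    rw [← this]
    refine Finset.sum_congr rfl fun i _ => ?_
    rw [show M + (i + 1 : ℝ) = M + 1 + i by ring]
    push_cast
    rfl
  have h1 := tel (fun y => √(y / B))
  have h2 := tel (fun y => √(y / B - 1))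
  have e : cu B (M + 1) - cu B M = 2 * ((∑ i ∈ range B, (√((M + 1 + (i + 1)) / B) - √((M + (i + 1)) / B))) -
      ∑ i ∈ range B, (√((M + 1 + (i + 1)) / B - 1) - √((M + (i + 1)) / B - 1))) := by
    unfold cu
    rw [← mul_sub, ← Finset.sum_sub_distrib, ← Finset.sum_sub_distrib]
    congr 1
    exact Finset.sum_congr rfl fun i _ => by ring
  rw [e, h1, h2]
  unfold th0
  rw [show (M + 1 + B) / B = (M + 1) / B + 1 by field_simp, 
    show (M + 1) / B + 1 - 1 = (M + 1) / B by ring]
  ring

/-- the sum over a cell. -/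
theorem Th_cell (V : Finset ℤ) (B : ℕ) (hB : 1 ≤ B) (lo l : ℕ) :
    |∑ v ∈ Finset.Ico lo (lo + l), Th V ((v : ℝ) / B)| ≤ 2 * √(B * l) := by
  have hBp : (0 : ℝ) < B := by exact_mod_cast hB
  have hB0 : (B : ℝ) ≠ 0 := hBp.ne'
  -- exchange
  have e1 : ∑ v ∈ Finset.Ico lo (lo + l), Th V ((v : ℝ) / B) =
      ∑ c ∈ V, ∑ v ∈ Finset.Ico lo (lo + l), th0 ((v : ℝ) / B - c) := by
    unfold Th
    exact Finset.sum_comm
  have e2 : ∀ c : ℤ, ∑ v ∈ Finset.Ico lo (lo + l), th0 ((v : ℝ) / B - c) =
      cu B (lo + l - 1 - c * B) - cu B (lo - 1 - c * B) := by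
    intro c
    clear e1
    induction l with
    | zero => simp
    | succ l ih =>
      rw [← add_assoc, Finset.sum_Ico_succ_top (by omega), ih]
      have := cu_step B hB ((lo : ℝ) + l - 1 - c * B)
      have h3 : ((lo + l : ℕ) : ℝ) / B - c = ((lo : ℝ) + l - 1 - c * B + 1) / B := by
        field_simp
        push_cast
        ring
      rw [h3, ← this]
      push_cast
      ring_nf
  rw [e1]
  simp only [e2]
  have e3 : ∑ c ∈ V, (cu B (lo + l - 1 - c * B) - cu B (lo - 1 - c * B)) =
      2 * ∑ i ∈ range B, ∑ c ∈ V, ((√((lo + l + i : ℝ) / B - c) - √((lo + i : ℝ) / B - c)) -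
        (√((lo + l + i : ℝ) / B - (c + 1)) - √((lo + i : ℝ) / B - (c + 1)))) := by
    rw [Finset.sum_comm, Finset.mul_sum]
    refine Finset.sum_congr rfl fun c _ => ?_
    unfold cu
    rw [← mul_sub, ← Finset.sum_sub_distrib]
    congr 1
    refine Finset.sum_congr rfl fun i _ => ?_
    have a1 : (lo + l - 1 - c * B + (i + 1) : ℝ) / B = (lo + l + i : ℝ) / B - c := by
      field_simp
      ring
    have a2 : (lo - 1 - c * B + (i + 1) : ℝ) / B = (lo + i : ℝ) / B - c := by
      field_simp
      ring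
    rw [a1, a2, show (lo + l + i : ℝ) / B - c - 1 = (lo + l + i : ℝ) / B - (c + 1) by ring,
      show (lo + i : ℝ) / B - c - 1 = (lo + i : ℝ) / B - (c + 1) by ring]
    ring
  rw [e3, abs_mul, abs_of_pos (by norm_num : (0 : ℝ) < 2)]
  refine mul_le_mul_of_nonneg_left ?_ (by norm_num)
  calc |∑ i ∈ range B, ∑ c ∈ V, ((√((lo + l + i : ℝ) / B - c) - √((lo + i : ℝ) / B - c)) -
        (√((lo + l + i : ℝ) / B - (c + 1)) - √((lo + i : ℝ) / B - (c + 1))))|
      ≤ ∑ i ∈ range B, |∑ c ∈ V, ((√((lo + l + i : ℝ) / B - c) - √((lo + i : ℝ) / B - c)) -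
        (√((lo + l + i : ℝ) / B - (c + 1)) - √((lo + i : ℝ) / B - (c + 1))))| :=
        Finset.abs_sum_le_sum_abs _ _
    _ ≤ ∑ i ∈ range B, √((l : ℝ) / B) := by
        refine Finset.sum_le_sum fun i _ => ?_
        have h := sqrt_diff_sum (l := (lo + i : ℝ) / B) (r := (lo + l + i : ℝ) / B)
          (div_le_div_of_nonneg_right (by linarith [Nat.cast_nonneg (α := ℝ) l]) hBp.le) V
        refine h.trans (le_of_eq ?_)
        congr 1
        field_simp
        ring
    _ = √(B * l) := by
        rw [Finset.sum_const, card_range, nsmul_eq_mul]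
        rw [show (B : ℝ) * l = (B : ℝ) ^ 2 * ((l : ℝ) / B) by field_simp,
          Real.sqrt_mul (by positivity), Real.sqrt_sq hBp.le]

end Pool.Agent.Lib.HBP.L
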