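import Mathlib
import Pool.Agent.Lib.HBP.Defs

/-!
HAP part B, section LOCAL (helper69): inequalities for the slopes `t x` of the children of one block,
`m` = mean slope, `e = 1 - (1/L) ∑ √(t x / m)`.
-/

open Finset

namespace Pool.Agent.Lib.HBP.L

/-- the exact energy identity. -/
theorem sqrt_energy (L : ℕ) (hL : 0 < L) (t : ℕ → ℝ) (m e : ℝ) (ht : ∀ x < L, 0 ≤ t x)
    (hm : 0 < m) (hs : ∑ x ∈ range L, t x = L * m)
    (he : e = 1 - (1 / L) * ∑ x ∈ range L, √(t x / m)) :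
    ∑ x ∈ range L, (√(t x) - √m) ^ 2 = 2 * L * m * e := by
  have hL0 : (L : ℝ) ≠ 0 := by exact_mod_cast hL.ne'
  have hsm := Real.sqrt_pos.2 hm
  have hsm2 := Real.mul_self_sqrt hm.le
  have e1 : ∑ x ∈ range L, √(t x / m) = (∑ x ∈ range L, √(t x)) / √m := by
    rw [Finset.sum_div]
    exact Finset.sum_congr rfl fun x hx => Real.sqrt_div (ht x (mem_range.1 hx)) m
  have e2 : ∑ x ∈ range L, (√(t x) - √m) ^ 2 =
      ∑ x ∈ range L, (t x + m - 2 * √m * √(t x)) := by
    refine Finset.sum_congr rfl fun x hx => ?_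
    have := Real.mul_self_sqrt (ht x (mem_range.1 hx))
    nlinarith
  rw [e2, Finset.sum_sub_distrib, Finset.sum_add_distrib, hs, ← Finset.mul_sum, he, e1]
  simp only [Finset.sum_const, card_range, nsmul_eq_mul]
  have e3 : (∑ x ∈ range L, √(t x)) / √m * m = √m * ∑ x ∈ range L, √(t x) := by
    rw [div_mul_eq_mul_div, div_eq_iff hsm.ne']
    linear_combination (∑ x ∈ range L, √(t x)) * (-hsm2)
  have e4 : 2 * (L : ℝ) * m * (1 - 1 / L * ((∑ x ∈ range L, √(t x)) / √m)) =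
      2 * L * m - 2 * ((∑ x ∈ range L, √(t x)) / √m * m) := by
    field_simp
  rw [e4, e3]
  ring

theorem psi_le_sqrt {u : ℝ} (hu : 0 ≤ u) : psi u ≤ 4 * (√u - 1) ^ 2 := by
  unfold psi
  have h1 := Real.mul_self_sqrt hu
  have h2 := Real.sqrt_nonneg u
  have hM : 0 < max 1 u := lt_of_lt_of_le one_pos (le_max_left _ _)
  rw [div_le_iff₀ hM]
  have e1 : (u - 1) ^ 2 = (√u - 1) ^ 2 * (√u + 1) ^ 2 := by
    have : u - 1 = (√u - 1) * (√u + 1) := by linear_combination -h1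
    rw [this]; ring
  rw [e1]
  have h3 : (√u + 1) ^ 2 ≤ 4 * max 1 u := by
    rcases le_total 1 u with h | h
    · rw [max_eq_right h]
      have : 1 ≤ √u := Real.one_le_sqrt.2 h
      nlinarith
    · rw [max_eq_left h]
      have : √u ≤ 1 := Real.sqrt_le_one.2 h
      nlinarith
  nlinarith [mul_le_mul_of_nonneg_left h3 (sq_nonneg (√u - 1))]

/-- energy of the slopes in terms of `psi`. -/
theorem psi_energy (L : ℕ) (hL : 0 < L) (t : ℕ → ℝ) (m e : ℝ) (ht : ∀ x < L, 0 ≤ t x)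
    (hm : 0 < m) (hs : ∑ x ∈ range L, t x = L * m)
    (he : e = 1 - (1 / L) * ∑ x ∈ range L, √(t x / m)) :
    ∑ x ∈ range L, psi (t x / m) ≤ 8 * L * e := by
  have h := sqrt_energy L hL t m e ht hm hs he
  have hsm := Real.sqrt_pos.2 hm
  have h1 : ∑ x ∈ range L, psi (t x / m) ≤ ∑ x ∈ range L, 4 / m * (√(t x) - √m) ^ 2 := by
    refine Finset.sum_le_sum fun x hx => ?_
    have hx := ht x (mem_range.1 hx)
    refine (psi_le_sqrt (div_nonneg hx hm.le)).trans (le_of_eq ?_)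
    rw [Real.sqrt_div hx]
    have : (√(t x) / √m - 1) ^ 2 = (√(t x) - √m) ^ 2 / m := by
      rw [div_sub_one hsm.ne', div_pow, Real.sq_sqrt hm.le]
    rw [this]; ring
  rw [← Finset.mul_sum, h] at h1
  refine h1.trans (le_of_eq ?_)
  field_simp
  ring

/-- the cross term of slopes and test function. -/
theorem cross_term (L : ℕ) (hL : 0 < L) (t f : ℕ → ℝ) (m e : ℝ) (ht : ∀ x < L, 0 ≤ t x)
    (hm : 0 < m) (hs : ∑ x ∈ range L, t x = L * m)
    (he : e = 1 - (1 / L) * ∑ x ∈ range L, √(t x / m)) (hf : ∀ x < L, |f x| ≤ 2) :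
    (∑ x ∈ range L, (t x - m) * f x) ^ 2 ≤
      m ^ 2 * (2 * L * e * (16 * L * e + 8 * ∑ x ∈ range L, f x ^ 2)) := by
  have h := sqrt_energy L hL t m e ht hm hs he
  have e1 : ∑ x ∈ range L, (t x - m) * f x =
      ∑ x ∈ range L, (√(t x) - √m) * ((√(t x) + √m) * f x) := by
    refine Finset.sum_congr rfl fun x hx => ?_
    have h1 := Real.mul_self_sqrt (ht x (mem_range.1 hx))
    have h2 := Real.mul_self_sqrt hm.le
    linear_combination (-f x) * h1 + f x * h2
  have cs := Finset.sum_mul_sq_le_sq_mul_sq (range L) (fun x => √(t x) - √m)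
    (fun x => (√(t x) + √m) * f x)
  rw [e1]
  refine cs.trans ?_
  rw [h]
  have h3 : ∑ x ∈ range L, ((√(t x) + √m) * f x) ^ 2 ≤
      ∑ x ∈ range L, (8 * (√(t x) - √m) ^ 2 + 8 * m * f x ^ 2) := by
    refine Finset.sum_le_sum fun x hx => ?_
    have h2 := Real.mul_self_sqrt hm.le
    have hfx : f x ^ 2 ≤ 4 := by
      have := hf x (mem_range.1 hx)
      rw [abs_le] at this
      nlinarith
    have h4 : (√(t x) + √m) ^ 2 ≤ 2 * (√(t x) - √m) ^ 2 + 8 * m := by
      nlinarith [sq_nonneg (√(t x) - 3 * √m)]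
    have h5 := mul_le_mul_of_nonneg_right h4 (sq_nonneg (f x))
    have h6 := mul_le_mul_of_nonneg_left hfx (sq_nonneg (√(t x) - √m))
    nlinarith
  rw [Finset.sum_add_distrib, ← Finset.mul_sum, ← Finset.mul_sum, h] at h3
  have h0 : 0 ≤ 2 * (L : ℝ) * m * e := by
    rw [← h]
    exact Finset.sum_nonneg fun _ _ => sq_nonneg _
  calc _ ≤ 2 * (L : ℝ) * m * e * (8 * (2 * L * m * e) + 8 * m * ∑ x ∈ range L, f x ^ 2) :=
        mul_le_mul_of_nonneg_left h3 h0
    _ = _ := by ring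

/-- Jensen for the square root. -/
theorem sum_sqrt_le (L : ℕ) (t : ℕ → ℝ) (m : ℝ) (ht : ∀ x < L, 0 ≤ t x) (hm : 0 ≤ m)
    (hs : ∑ x ∈ range L, t x = L * m) : ∑ x ∈ range L, √(1 + t x) ≤ L * √(1 + m) := by
  have cs := Finset.sum_mul_sq_le_sq_mul_sq (range L) (fun _ => (1 : ℝ)) (fun x => √(1 + t x))
  have h1 : ∑ x ∈ range L, √(1 + t x) ^ 2 = L * (1 + m) := by
    rw [mul_add, ← hs, mul_one]
    have : ∀ x ∈ range L, √(1 + t x) ^ 2 = 1 + t x := fun x hx =>
      Real.sq_sqrt (by have := ht x (mem_range.1 hx); linarith)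
    rw [Finset.sum_congr rfl this, Finset.sum_add_distrib]
    simp
  simp only [one_mul, one_pow, Finset.sum_const, card_range, nsmul_eq_mul, mul_one] at cs
  rw [h1] at cs
  refine abs_le_of_sq_le_sq' ?_ (by positivity) |>.2
  rw [mul_pow, Real.sq_sqrt (by linarith)]
  nlinarith

/-- the error of one child. -/
theorem child_err {t m β : ℝ} (ht : 0 ≤ t) (hm : 0 ≤ m) (hβ : 0 < β) :
    (1 + t) * min 1 (√((1 + t) / β)) ≤
      8 * ((1 + m) * √((1 + m) / β)) + 8 * (√t - √m) ^ 2 := by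
  have hn : 0 ≤ 8 * (√t - √m) ^ 2 := by positivity
  have hn2 : 0 ≤ 8 * ((1 + m) * √((1 + m) / β)) := by positivity
  have case1 : 1 + t ≤ 4 * (1 + m) → (1 + t) * min 1 (√((1 + t) / β)) ≤
      8 * ((1 + m) * √((1 + m) / β)) := by
    intro h
    have h1 : √((1 + t) / β) ≤ 2 * √((1 + m) / β) := by
      have : √((1 + t) / β) ≤ √(2 ^ 2 * ((1 + m) / β)) := by
        refine Real.sqrt_le_sqrt ?_
        rw [← mul_div_assoc]
        exact div_le_div_of_nonneg_right (by linarith) hβ.le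
      rwa [Real.sqrt_mul (by norm_num), Real.sqrt_sq (by norm_num)] at this
    have h2 : min 1 (√((1 + t) / β)) ≤ 2 * √((1 + m) / β) := (min_le_right _ _).trans h1
    calc _ ≤ (4 * (1 + m)) * (2 * √((1 + m) / β)) :=
          mul_le_mul h h2 (le_min zero_le_one (Real.sqrt_nonneg _)) (by linarith)
      _ = _ := by ring
  rcases le_total t 1 with h | h
  · have := case1 (by linarith)
    linarith
  rcases le_total t (4 * m) with h2 | h2
  · have := case1 (by linarith)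
    linarith
  have h3 : √m ≤ √t / 2 := by
    have : √m ≤ √(t / 2 ^ 2) := Real.sqrt_le_sqrt (by linarith)
    rwa [Real.sqrt_div ht, Real.sqrt_sq (by norm_num)] at this
  have h4 := Real.sqrt_nonneg m
  have h5 := Real.mul_self_sqrt ht
  have h6 : t ≤ 4 * (√t - √m) ^ 2 := by nlinarith
  have h7 : (1 + t) * min 1 (√((1 + t) / β)) ≤ (1 + t) * 1 :=
    mul_le_mul_of_nonneg_left (min_le_left _ _) (by linarith)
  linarith

end Pool.Agent.Lib.HBP.L
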