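import Mathlib
import Pool.Agent.Lib.HBP.ThBound
import Pool.Agent.Lib.HBP.L.Slope
import Pool.Agent.Lib.HBP.L.Cell

/-!
HAP part B, section LOCAL (helper69): one block.  `Φ x = Th V ((A x + σ x b)/B)`, `B = β b`,
`t x = (A (x+1) - A x)/b`, `m` its mean, `e` the energy:
`(1/(b (1+m))) ∑ csum ≤ ∑ Φ + √(2 L e (16 L e + 8 ∑ Φ^2)) + 32 L √((1+m)/β) + 64 L e`.
-/

open Finset

namespace Pool.Agent.Lib.HBP.L

/-- the sum over the range of a child against the value at its first point. -/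
theorem csum_err (V : Finset ℤ) (A : ℕ → ℕ) (b β x r : ℕ) (hb : 0 < b) (hβ : 0 < β)
    (hA : A x ≤ A (x + 1)) :
    |csum (fun v => Th V ((v : ℝ) / (β * b : ℕ))) A b x r -
        b * (1 + ((A (x + 1) : ℝ) - A x) / b) * Th V (((A x + r * b : ℕ) : ℝ) / (β * b : ℕ))| ≤
      4 * b * ((1 + ((A (x + 1) : ℝ) - A x) / b) *
        min 1 (√((1 + ((A (x + 1) : ℝ) - A x) / b) / β))) := by
  set t : ℝ := ((A (x + 1) : ℝ) - A x) / b with ht
  have hbp : (0 : ℝ) < b := by exact_mod_cast hb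
  have hβp : (0 : ℝ) < β := by exact_mod_cast hβ
  have hAr : (A x : ℝ) ≤ A (x + 1) := by exact_mod_cast hA
  have ht0 : 0 ≤ t := div_nonneg (by linarith) hbp.le
  have hlen : (((A (x + 1) + (r + 1) * b : ℕ) : ℝ) - ((A x + r * b : ℕ) : ℝ)) = b * (1 + t) := by
    push_cast
    rw [ht, mul_add, mul_div_cancel₀ _ hbp.ne']
    ring
  have hle : A x + r * b ≤ A (x + 1) + (r + 1) * b := by nlinarith
  have hcard : ((Finset.Ico (A x + r * b) (A (x + 1) + (r + 1) * b)).card : ℝ) = b * (1 + t) := by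
    rw [Nat.card_Ico, Nat.cast_sub hle, hlen]
  set T := Th V (((A x + r * b : ℕ) : ℝ) / (β * b : ℕ)) with hT
  have e1 : csum (fun v => Th V ((v : ℝ) / (β * b : ℕ))) A b x r - b * (1 + t) * T =
      ∑ v ∈ Finset.Ico (A x + r * b) (A (x + 1) + (r + 1) * b),
        (Th V ((v : ℝ) / (β * b : ℕ)) - T) := by
    unfold csum isum
    rw [Finset.sum_sub_distrib, Finset.sum_const, nsmul_eq_mul, hcard]
  rw [e1]
  refine (Finset.abs_sum_le_sum_abs _ _).trans ?_
  have h1 : ∀ v ∈ Finset.Ico (A x + r * b) (A (x + 1) + (r + 1) * b),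
      |Th V ((v : ℝ) / (β * b : ℕ)) - T| ≤ 4 * min 1 (√((1 + t) / β)) := by
    intro v hv
    rw [Finset.mem_Ico] at hv
    rw [mul_min_of_nonneg _ _ (by norm_num : (0 : ℝ) ≤ 4)]
    refine le_min ?_ ?_
    · have h2 := abs_Th_le V ((v : ℝ) / (β * b : ℕ))
      have h3 := abs_Th_le V (((A x + r * b : ℕ) : ℝ) / (β * b : ℕ))
      rw [abs_le] at h2 h3 ⊢
      constructor <;> linarith [h2.1, h2.2, h3.1, h3.2]
    · refine (Th_holder V _ _).trans ?_
      refine mul_le_mul_of_nonneg_left (Real.sqrt_le_sqrt ?_) (by norm_num)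
      rw [← sub_div, abs_div]
      have h4 : (0 : ℝ) < (β * b : ℕ) := by exact_mod_cast Nat.mul_pos hβ hb
      rw [abs_of_pos h4, div_le_div_iff₀ h4 hβp]
      have h5 : (v : ℝ) ≥ ((A x + r * b : ℕ) : ℝ) := by exact_mod_cast hv.1
      have h6 : (v : ℝ) ≤ ((A (x + 1) + (r + 1) * b : ℕ) : ℝ) := by exact_mod_cast hv.2.le
      rw [abs_of_nonneg (by linarith)]
      have h7 : (v : ℝ) - ((A x + r * b : ℕ) : ℝ) ≤ b * (1 + t) := by rw [← hlen]; linarith
      push_cast at h7 ⊢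
      nlinarith [mul_le_mul_of_nonneg_right h7 hβp.le]
  refine (Finset.sum_le_sum h1).trans (le_of_eq ?_)
  rw [Finset.sum_const, nsmul_eq_mul, hcard]
  ring

theorem block_lower (V : Finset ℤ) (A : ℕ → ℕ) (b β L : ℕ) (σ : ℕ → ℕ) (m e : ℝ)
    (hb : 0 < b) (hβ : 0 < β) (hL : 0 < L) (hA : ∀ x < L, A x ≤ A (x + 1)) (hm : 0 < m)
    (hms : ((A L : ℝ) - A 0) / b = L * m)
    (he : e = 1 - (1 / L) * ∑ x ∈ range L, √((((A (x + 1) : ℝ) - A x) / b) / m)) :
    (∑ x ∈ range L, csum (fun v => Th V ((v : ℝ) / (β * b : ℕ))) A b x (σ x)) / (b * (1 + m)) ≤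
      ∑ x ∈ range L, Th V (((A x + σ x * b : ℕ) : ℝ) / (β * b : ℕ)) +
      √(2 * L * e * (16 * L * e + 8 * ∑ x ∈ range L,
        Th V (((A x + σ x * b : ℕ) : ℝ) / (β * b : ℕ)) ^ 2)) +
      32 * L * √((1 + m) / β) + 64 * L * e := by
  have hbp : (0 : ℝ) < b := by exact_mod_cast hb
  have hβp : (0 : ℝ) < β := by exact_mod_cast hβ
  set t : ℕ → ℝ := fun x => ((A (x + 1) : ℝ) - A x) / b with ht
  set f : ℕ → ℝ := fun x => Th V (((A x + σ x * b : ℕ) : ℝ) / (β * b : ℕ)) with hf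
  have ht0 : ∀ x < L, 0 ≤ t x := fun x hx =>
    div_nonneg (by have : (A x : ℝ) ≤ A (x + 1) := by exact_mod_cast hA x hx
                   linarith) hbp.le
  have hs : ∑ x ∈ range L, t x = L * m := by
    rw [← hms, ht, ← Finset.sum_div]
    congr 1
    have := Finset.sum_range_sub (fun x : ℕ => (A x : ℝ)) L
    rw [← this]
  have en := sqrt_energy L hL t m e ht0 hm hs he
  have cr := cross_term L hL t f m e ht0 hm hs he (fun x _ => abs_Th_le _ _)
  have h1 : ∑ x ∈ range L, csum (fun v => Th V ((v : ℝ) / (β * b : ℕ))) A b x (σ x) ≤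
      ∑ x ∈ range L, (b * (1 + t x) * f x + 4 * b * (8 * ((1 + m) * √((1 + m) / β)) +
        8 * (√(t x) - √m) ^ 2)) := by
    refine Finset.sum_le_sum fun x hx => ?_
    have hx := mem_range.1 hx
    have h2 := (abs_le.1 (csum_err V A b β x (σ x) hb hβ (hA x hx))).2
    have h3 := child_err (ht0 x hx) hm.le hβp
    have h4 := mul_le_mul_of_nonneg_left h3 (by positivity : (0 : ℝ) ≤ 4 * b)
    simp only [ht, hf] at h4 ⊢
    linarith
  have h2 : ∑ x ∈ range L, (b * (1 + t x) * f x + 4 * b * (8 * ((1 + m) * √((1 + m) / β)) +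
        8 * (√(t x) - √m) ^ 2)) = b * (1 + m) * ∑ x ∈ range L, f x +
        b * ∑ x ∈ range L, (t x - m) * f x +
        4 * b * (8 * L * ((1 + m) * √((1 + m) / β)) + 8 * (2 * L * m * e)) := by
    rw [← en]
    simp only [Finset.sum_add_distrib, ← Finset.mul_sum, Finset.sum_const, card_range,
      nsmul_eq_mul]
    have : ∑ x ∈ range L, b * (1 + t x) * f x = b * (1 + m) * ∑ x ∈ range L, f x +
        b * ∑ x ∈ range L, (t x - m) * f x := by
      rw [Finset.mul_sum, Finset.mul_sum, ← Finset.sum_add_distrib]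
      exact Finset.sum_congr rfl fun x _ => by ring
    rw [this]
    ring
  have h3 : ∑ x ∈ range L, (t x - m) * f x ≤
      m * √(2 * L * e * (16 * L * e + 8 * ∑ x ∈ range L, f x ^ 2)) := by
    refine abs_le_of_sq_le_sq' ?_ (by positivity) |>.2
    rw [mul_pow, Real.sq_sqrt]
    · exact cr
    · have h4 : 0 ≤ m ^ 2 * (2 * L * e * (16 * L * e + 8 * ∑ x ∈ range L, f x ^ 2)) :=
        (sq_nonneg _).trans cr
      exact nonneg_of_mul_nonneg_right h4 (by positivity)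
  have he0 : 0 ≤ 2 * (L : ℝ) * m * e := by
    rw [← en]
    exact Finset.sum_nonneg fun _ _ => sq_nonneg _
  have hLe : 0 ≤ (L : ℝ) * e := by
    by_contra hcon
    push Not at hcon
    nlinarith
  have hm1 : 0 < 1 + m := by linarith
  rw [div_le_iff₀ (mul_pos hbp hm1)]
  rw [h2] at h1
  refine h1.trans ?_
  set R := √(2 * L * e * (16 * L * e + 8 * ∑ x ∈ range L, f x ^ 2)) with hR
  have hR0 : 0 ≤ R := Real.sqrt_nonneg _
  have h5 := mul_le_mul_of_nonneg_left h3 hbp.le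
  have h6 : m * R ≤ (1 + m) * R := mul_le_mul_of_nonneg_right (by linarith) hR0
  have h7 := mul_le_mul_of_nonneg_left h6 hbp.le
  have h8 : 4 * b * (8 * (2 * L * m * e)) ≤ 64 * L * e * (b * (1 + m)) := by
    nlinarith [mul_nonneg hbp.le hLe]
  nlinarith

end Pool.Agent.Lib.HBP.L
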