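import Mathlib

/-!
HAP part B, section LOCAL (helper69): Hellinger inequalities for two nonnegative weights
on a finite set (nothing is normalised).
-/

open Finset

namespace Pool.Agent.Lib.HBP.L

variable {ι : Type*}

/-- squared Hellinger distance of two weights. -/
noncomputable def hel (s : Finset ι) (a b : ι → ℝ) : ℝ :=
  ∑ x ∈ s, (Real.sqrt (a x) - Real.sqrt (b x)) ^ 2

theorem hel_nonneg (s : Finset ι) (a b : ι → ℝ) : 0 ≤ hel s a b :=
  Finset.sum_nonneg fun _ _ => sq_nonneg _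

/-- the difference of two weighted sums. -/
theorem hel_diff (s : Finset ι) (a b f : ι → ℝ) (ha : ∀ x ∈ s, 0 ≤ a x)
    (hb : ∀ x ∈ s, 0 ≤ b x) :
    (∑ x ∈ s, a x * f x - ∑ x ∈ s, b x * f x) ^ 2 ≤
      2 * hel s a b * (∑ x ∈ s, a x * f x ^ 2 + ∑ x ∈ s, b x * f x ^ 2) := by
  have e1 : ∑ x ∈ s, a x * f x - ∑ x ∈ s, b x * f x =
      ∑ x ∈ s, (Real.sqrt (a x) - Real.sqrt (b x)) *
        ((Real.sqrt (a x) + Real.sqrt (b x)) * f x) := by
    rw [← Finset.sum_sub_distrib]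
    refine Finset.sum_congr rfl fun x hx => ?_
    have h1 := Real.mul_self_sqrt (ha x hx)
    have h2 := Real.mul_self_sqrt (hb x hx)
    have : (Real.sqrt (a x) - Real.sqrt (b x)) * ((Real.sqrt (a x) + Real.sqrt (b x)) * f x) =
      (Real.sqrt (a x) * Real.sqrt (a x) - Real.sqrt (b x) * Real.sqrt (b x)) * f x := by ring
    rw [this, h1, h2]
    ring
  have cs := Finset.sum_mul_sq_le_sq_mul_sq s
    (fun x => Real.sqrt (a x) - Real.sqrt (b x))
    (fun x => (Real.sqrt (a x) + Real.sqrt (b x)) * f x)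
  rw [e1]
  refine cs.trans ?_
  have e2 : ∑ x ∈ s, ((Real.sqrt (a x) + Real.sqrt (b x)) * f x) ^ 2 ≤
      2 * (∑ x ∈ s, a x * f x ^ 2 + ∑ x ∈ s, b x * f x ^ 2) := by
    rw [← Finset.sum_add_distrib, Finset.mul_sum]
    refine Finset.sum_le_sum fun x hx => ?_
    have h1 := Real.mul_self_sqrt (ha x hx)
    have h2 := Real.mul_self_sqrt (hb x hx)
    nlinarith [mul_nonneg (sq_nonneg (Real.sqrt (a x) - Real.sqrt (b x))) (sq_nonneg (f x))]
  have h0 := hel_nonneg s a b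
  calc _ ≤ hel s a b * (2 * (∑ x ∈ s, a x * f x ^ 2 + ∑ x ∈ s, b x * f x ^ 2)) :=
        mul_le_mul_of_nonneg_left e2 h0
    _ = _ := by ring

/-- change of weight for nonnegative functions. -/
theorem hel_change (s : Finset ι) (a b g : ι → ℝ) {M : ℝ} (ha : ∀ x ∈ s, 0 ≤ a x)
    (hb : ∀ x ∈ s, 0 ≤ b x) (hg : ∀ x ∈ s, 0 ≤ g x) (hM : ∀ x ∈ s, g x ≤ M) :
    ∑ x ∈ s, b x * g x ≤ 2 * ∑ x ∈ s, a x * g x + 2 * M * hel s a b := by
  unfold hel
  rw [Finset.mul_sum, Finset.mul_sum, ← Finset.sum_add_distrib]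
  refine Finset.sum_le_sum fun x hx => ?_
  have h1 := Real.mul_self_sqrt (ha x hx)
  have h2 := Real.mul_self_sqrt (hb x hx)
  have h3 : b x ≤ 2 * a x + 2 * (Real.sqrt (a x) - Real.sqrt (b x)) ^ 2 := by
    nlinarith [sq_nonneg (2 * Real.sqrt (a x) - Real.sqrt (b x))]
  have h4 : (Real.sqrt (a x) - Real.sqrt (b x)) ^ 2 * g x ≤
      (Real.sqrt (a x) - Real.sqrt (b x)) ^ 2 * M :=
    mul_le_mul_of_nonneg_left (hM x hx) (sq_nonneg _)
  nlinarith [mul_le_mul_of_nonneg_right h3 (hg x hx)]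

theorem hel_symm (s : Finset ι) (a b : ι → ℝ) : hel s a b = hel s b a := by
  unfold hel
  exact Finset.sum_congr rfl fun x _ => by ring

/-- the Hellinger distance is at most the Kullback-Leibler divergence. -/
theorem hel_le_kl (s : Finset ι) (a b : ι → ℝ) (ha : ∀ x ∈ s, 0 ≤ a x)
    (hb : ∀ x ∈ s, 0 < b x) (hab : ∑ x ∈ s, a x = ∑ x ∈ s, b x) :
    hel s a b ≤ ∑ x ∈ s, a x * Real.log (a x / b x) := by
  have h1 : hel s a b = ∑ x ∈ s, (2 * a x - 2 * (Real.sqrt (a x) * Real.sqrt (b x))) := by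
    have e : hel s a b = ∑ x ∈ s, (a x + b x - 2 * (Real.sqrt (a x) * Real.sqrt (b x))) := by
      unfold hel
      refine Finset.sum_congr rfl fun x hx => ?_
      have h1 := Real.mul_self_sqrt (ha x hx)
      have h2 := Real.mul_self_sqrt (hb x hx).le
      nlinarith
    rw [e]
    simp only [Finset.sum_sub_distrib, Finset.sum_add_distrib, ← Finset.mul_sum]
    linarith
  rw [h1]
  refine Finset.sum_le_sum fun x hx => ?_
  rcases (ha x hx).eq_or_lt with h | h
  · rw [← h]; simp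
  · have hs1 := Real.sqrt_pos.2 h
    have hs2 := Real.sqrt_pos.2 (hb x hx)
    have m1 := Real.mul_self_sqrt (ha x hx)
    have m2 := Real.mul_self_sqrt (hb x hx).le
    have l1 : Real.log (a x / b x) = -2 * Real.log (Real.sqrt (b x) / Real.sqrt (a x)) := by
      rw [Real.log_div hs2.ne' hs1.ne', Real.log_sqrt (hb x hx).le, Real.log_sqrt h.le,
        Real.log_div h.ne' (hb x hx).ne']
      ring
    have l2 := Real.log_le_sub_one_of_pos (div_pos hs2 hs1)
    rw [l1]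
    have l3 : a x * (Real.sqrt (b x) / Real.sqrt (a x)) = Real.sqrt (a x) * Real.sqrt (b x) := by
      rw [mul_div_assoc', div_eq_iff hs1.ne']
      nlinarith
    nlinarith [mul_le_mul_of_nonneg_left l2 h.le]

/-- masses of sets. -/
theorem hel_mass (s : Finset ι) (a b : ι → ℝ) (A : ι → Prop) [DecidablePred A]
    (ha : ∀ x ∈ s, 0 ≤ a x) (hb : ∀ x ∈ s, 0 ≤ b x) :
    ∑ x ∈ s with A x, b x ≤ 2 * ∑ x ∈ s with A x, a x + 2 * hel s a b := by
  have h := hel_change s a b (fun x => if A x then 1 else 0) (M := 1) ha hb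
    (fun x _ => by split_ifs <;> norm_num) (fun x _ => by split_ifs <;> norm_num)
  simp only [mul_ite, mul_one, mul_zero] at h
  rw [← Finset.sum_filter, ← Finset.sum_filter] at h
  exact h

end Pool.Agent.Lib.HBP.L
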