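import Mathlib
import Pool.Agent.Lib.HBP.Defs

/-!
HAP part B, section LOCAL (helper69): the upper bound of `∑ N v φ v` by the variance of `N` in the parent
cells `[c L, (c+1) L)`, and Cauchy-Schwarz over blocks.
-/

open Finset

namespace Pool.Agent.Lib.HBP.L

theorem sum_cells (n L : ℕ) (f : ℕ → ℝ) :
    ∑ v ∈ range (n * L), f v = ∑ c ∈ range n, ∑ x ∈ range L, f (c * L + x) := by
  induction n with
  | zero => simp
  | succ n ih => rw [add_mul, one_mul, Finset.sum_range_add, ih, Finset.sum_range_succ]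

/-- the variance of `N` inside the parent cells. -/
noncomputable def vari (n L : ℕ) (N : ℕ → ℝ) : ℝ :=
  ∑ c ∈ range n, ∑ x ∈ range L, (N (c * L + x) - (∑ y ∈ range L, N (c * L + y)) / L) ^ 2

theorem cell_upper (n L : ℕ) (hL : 0 < L) (N φ : ℕ → ℝ) (Z : ℝ) (hN : ∀ v, 0 ≤ N v)
    (hZ : ∀ c < n, |∑ x ∈ range L, φ (c * L + x)| ≤ Z) :
    ∑ v ∈ range (n * L), N v * φ v ≤
      √(vari n L N * ∑ v ∈ range (n * L), φ v ^ 2) + (∑ v ∈ range (n * L), N v) / L * Z := by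
  have hL0 : (0 : ℝ) < L := by exact_mod_cast hL
  have e1 : ∑ v ∈ range (n * L), N v * φ v =
      ∑ c ∈ range n, ∑ x ∈ range L,
        (N (c * L + x) - (∑ y ∈ range L, N (c * L + y)) / L) * φ (c * L + x) +
      ∑ c ∈ range n, (∑ y ∈ range L, N (c * L + y)) / L * ∑ x ∈ range L, φ (c * L + x) := by
    rw [sum_cells, ← Finset.sum_add_distrib]
    refine Finset.sum_congr rfl fun c _ => ?_
    rw [Finset.mul_sum, ← Finset.sum_add_distrib]
    exact Finset.sum_congr rfl fun x _ => by ring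
  have l1 : ∑ c ∈ range n, ∑ x ∈ range L,
        (N (c * L + x) - (∑ y ∈ range L, N (c * L + y)) / L) * φ (c * L + x) ≤
      √(vari n L N * ∑ v ∈ range (n * L), φ v ^ 2) := by
    refine Real.le_sqrt_of_sq_le ?_
    rw [sum_cells n L (fun v => φ v ^ 2)]
    unfold vari
    rw [← Finset.sum_product', ← Finset.sum_product', ← Finset.sum_product']
    exact Finset.sum_mul_sq_le_sq_mul_sq _ _ _
  have l2 : ∑ c ∈ range n, (∑ y ∈ range L, N (c * L + y)) / L * ∑ x ∈ range L, φ (c * L + x) ≤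
      (∑ v ∈ range (n * L), N v) / L * Z := by
    rw [sum_cells n L N, Finset.sum_div, Finset.sum_mul]
    refine Finset.sum_le_sum fun c hc => ?_
    refine mul_le_mul_of_nonneg_left ((le_abs_self _).trans (hZ c (mem_range.1 hc))) ?_
    exact div_nonneg (Finset.sum_nonneg fun _ _ => hN _) hL0.le
  rw [e1]
  exact add_le_add l1 l2

/-- Cauchy-Schwarz over blocks. -/
theorem sum_sqrt_mul_le {ι : Type*} (s : Finset ι) (p q : ι → ℝ) (hp : ∀ k ∈ s, 0 ≤ p k)
    (hq : ∀ k ∈ s, 0 ≤ q k) :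
    ∑ k ∈ s, √(p k * q k) ≤ √((∑ k ∈ s, p k) * ∑ k ∈ s, q k) := by
  refine Real.le_sqrt_of_sq_le ?_
  have cs := Finset.sum_mul_sq_le_sq_mul_sq s (fun k => √(p k)) (fun k => √(q k))
  have e1 : ∑ k ∈ s, √(p k) ^ 2 = ∑ k ∈ s, p k :=
    Finset.sum_congr rfl fun k hk => Real.sq_sqrt (hp k hk)
  have e2 : ∑ k ∈ s, √(q k) ^ 2 = ∑ k ∈ s, q k :=
    Finset.sum_congr rfl fun k hk => Real.sq_sqrt (hq k hk)
  rw [e1, e2] at cs
  have e3 : ∑ k ∈ s, √(p k * q k) = ∑ k ∈ s, √(p k) * √(q k) :=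
    Finset.sum_congr rfl fun k hk => Real.sqrt_mul (hp k hk) _
  rw [e3]
  exact cs

end Pool.Agent.Lib.HBP.L
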