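import Mathlib
import Pool.Agent.Lib.HBP.Level
import Pool.Agent.Lib.HBP.ThBound
import Pool.Agent.Lib.HBP.L.Upper

/-!
HAP part B, section LOCAL (helper69): sums over the chain elements in the blocks `𝓛`, counted by cells of
weights and by children.
-/

open Finset

namespace Pool.Agent.Lib.HBP.L

/-- chain elements in the blocks of `𝓛`. -/
def chn (C : Finset ℕ) (S : ℕ) (𝓛 : Finset ℕ) : Finset ℕ := C.filter fun q => q / S ∈ 𝓛

theorem sum_ncell (C : Finset ℕ) (w : ℕ → ℕ) (S : ℕ) (𝓛 : Finset ℕ) (b M : ℕ)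
    (hM : ∀ q ∈ chn C S 𝓛, w q / b < M) (f : ℕ → ℝ) :
    ∑ c ∈ range M, (ncell C w S 𝓛 b c : ℝ) * f c = ∑ q ∈ chn C S 𝓛, f (w q / b) := by
  have h := Finset.sum_fiberwise_of_maps_to (s := chn C S 𝓛) (t := range M)
    (g := fun q => w q / b) (fun q hq => mem_range.2 (hM q hq)) (fun q => f (w q / b))
  rw [← h]
  refine Finset.sum_congr rfl fun c _ => ?_
  have e : ∑ q ∈ chn C S 𝓛 with w q / b = c, f (w q / b) =
      ∑ q ∈ chn C S 𝓛 with w q / b = c, f c :=
    Finset.sum_congr rfl fun q hq => by rw [(Finset.mem_filter.1 hq).2]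
  rw [e, Finset.sum_const, nsmul_eq_mul]
  congr 2
  unfold ncell chn
  rw [Finset.filter_filter]

theorem sum_child (C : Finset ℕ) (L b : ℕ) (hL : 0 < L) (𝓛 : Finset ℕ) (f : ℕ → ℕ → ℝ) :
    ∑ q ∈ chn C (L * b) 𝓛, f (q / b / L) (q / b % L) =
      ∑ k ∈ 𝓛, ∑ x ∈ range L, (cnt C b (k * L + x) : ℝ) * f k x := by
  have hdiv : ∀ q : ℕ, q / (L * b) = q / b / L := fun q => by
    rw [Nat.div_div_eq_div_mul, Nat.mul_comm]
  have h := Finset.sum_fiberwise_of_maps_to (s := chn C (L * b) 𝓛) (t := 𝓛 ×ˢ range L)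
    (g := fun q => (q / b / L, q / b % L)) (fun q hq => by
      rw [Finset.mem_product]
      refine ⟨?_, mem_range.2 (Nat.mod_lt _ hL)⟩
      have := (Finset.mem_filter.1 hq).2
      rwa [hdiv] at this) (fun q => f (q / b / L) (q / b % L))
  rw [← h, Finset.sum_product]
  refine Finset.sum_congr rfl fun k hk => Finset.sum_congr rfl fun x hx => ?_
  have e : ∑ q ∈ chn C (L * b) 𝓛 with (q / b / L, q / b % L) = (k, x),
      f (q / b / L) (q / b % L) =
      ∑ q ∈ chn C (L * b) 𝓛 with (q / b / L, q / b % L) = (k, x), f k x :=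
    Finset.sum_congr rfl fun q hq => by
      have := (Finset.mem_filter.1 hq).2
      rw [Prod.mk.injEq] at this
      rw [this.1, this.2]
  rw [e, Finset.sum_const, nsmul_eq_mul]
  congr 2
  unfold cnt chn
  rw [Finset.filter_filter]
  congr 1
  refine Finset.filter_congr fun q _ => ?_
  rw [hdiv, Prod.mk.injEq]
  constructor
  · rintro ⟨_, h1, h2⟩
    rw [← h1, ← h2, Nat.mul_comm, Nat.div_add_mod]
  · intro h1
    have h2 : q / b / L = k := by
      rw [h1, Nat.mul_comm, Nat.mul_add_div hL, Nat.div_eq_of_lt (mem_range.1 hx), add_zero]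
    refine ⟨by rw [h2]; exact hk, h2, ?_⟩
    rw [h1, Nat.mul_comm, Nat.mul_add_mod, Nat.mod_eq_of_lt (mem_range.1 hx)]

/-- number of elements of a block = sum over the children. -/
theorem cnt_child (C : Finset ℕ) (L b : ℕ) (hL : 0 < L) (k : ℕ) :
    ∑ x ∈ range L, (cnt C b (k * L + x) : ℝ) = cnt C (L * b) k := by
  have h := sum_child C L b hL {k} (fun _ _ => 1)
  simp only [Finset.sum_singleton, mul_one, Finset.sum_const, nsmul_eq_mul] at h
  rw [← h]
  unfold chn cnt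
  simp only [Finset.mem_singleton]

/-- number of chain elements in the blocks. -/
theorem card_chn (C : Finset ℕ) (S : ℕ) (𝓛 : Finset ℕ) :
    ∑ k ∈ 𝓛, (cnt C S k : ℝ) = (chn C S 𝓛).card := by
  have h := Finset.sum_fiberwise_of_maps_to (s := chn C S 𝓛) (t := 𝓛)
    (g := fun q => q / S) (fun q hq => (Finset.mem_filter.1 hq).2) (fun _ => (1 : ℝ))
  simp only [Finset.sum_const, nsmul_eq_mul, mul_one] at h
  rw [← h]
  refine Finset.sum_congr rfl fun k hk => ?_
  unfold cnt chn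
  rw [Finset.filter_filter]
  congr 2
  refine Finset.filter_congr fun q _ => ?_
  constructor
  · rintro rfl; exact ⟨hk, rfl⟩
  · exact fun h => h.2

theorem chn_sub (C : Finset ℕ) (S : ℕ) (𝓛 : Finset ℕ) : chn C S 𝓛 ⊆ C := Finset.filter_subset _ _

/-- capacity of a cell. -/
theorem ncell_le (C : Finset ℕ) (w : ℕ → ℕ) (hw : Set.InjOn w C) (S : ℕ) (𝓛 : Finset ℕ) (b c : ℕ)
    (hb : 0 < b) : ncell C w S 𝓛 b c ≤ b := by
  unfold ncell
  have h1 : (C.filter fun q => q / S ∈ 𝓛 ∧ w q / b = c).card =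
      ((C.filter fun q => q / S ∈ 𝓛 ∧ w q / b = c).image w).card := by
    rw [Finset.card_image_of_injOn]
    exact hw.mono fun q hq => (Finset.mem_filter.1 hq).1
  rw [h1]
  refine (Finset.card_le_card (t := Finset.Ico (c * b) (c * b + b)) ?_).trans ?_
  · intro z hz
    rw [Finset.mem_image] at hz
    obtain ⟨q, hq, rfl⟩ := hz
    have h2 := (Finset.mem_filter.1 hq).2.2
    rw [Finset.mem_Ico, ← h2]
    constructor
    · exact Nat.div_mul_le_self _ _
    · exact Nat.lt_div_mul_add hb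
  · rw [Nat.card_Ico]; omega

/-- parent cells. -/
theorem ncell_parent (C : Finset ℕ) (w : ℕ → ℕ) (S : ℕ) (𝓛 : Finset ℕ) (L b p : ℕ) (hL : 0 < L) :
    ∑ y ∈ range L, (ncell C w S 𝓛 b (p * L + y) : ℝ) = ncell C w S 𝓛 (L * b) p := by
  have hdiv : ∀ q : ℕ, q / (L * b) = q / b / L := fun q => by
    rw [Nat.div_div_eq_div_mul, Nat.mul_comm]
  have h := Finset.sum_fiberwise_of_maps_to
    (s := C.filter fun q => q / S ∈ 𝓛 ∧ w q / (L * b) = p) (t := range L)
    (g := fun q => w q / b % L) (fun q _ => mem_range.2 (Nat.mod_lt _ hL)) (fun _ => (1 : ℝ))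
  simp only [Finset.sum_const, nsmul_eq_mul, mul_one] at h
  unfold ncell
  rw [← h]
  refine Finset.sum_congr rfl fun x hx => ?_
  congr 2
  rw [Finset.filter_filter]
  refine Finset.filter_congr fun q _ => ?_
  rw [hdiv]
  constructor
  · rintro ⟨h1, h2⟩
    refine ⟨⟨h1, ?_⟩, ?_⟩
    · rw [h2, Nat.mul_comm, Nat.mul_add_div hL, Nat.div_eq_of_lt (mem_range.1 hx), add_zero]
    · rw [h2, Nat.mul_comm, Nat.mul_add_mod, Nat.mod_eq_of_lt (mem_range.1 hx)]
  · rintro ⟨⟨h1, h2⟩, h3⟩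
    refine ⟨h1, ?_⟩
    rw [← h2, ← h3, Nat.mul_comm, Nat.div_add_mod]

/-- `Vq` is the variance inside the parent cells. -/
theorem Vq_eq (C : Finset ℕ) (w : ℕ → ℕ) (L b : ℕ) (hL : 0 < L) (𝓛 : Finset ℕ) (M : ℕ) :
    Vq C w L b 𝓛 M = 1 / b * vari M L (fun c => (ncell C w (L * b) 𝓛 b c : ℝ)) := by
  unfold Vq vari
  rw [sum_cells]
  congr 1
  refine Finset.sum_congr rfl fun c _ => Finset.sum_congr rfl fun x hx => ?_
  rw [ncell_parent C w (L * b) 𝓛 L b c hL]
  have : (c * L + x) / L = c := by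
    rw [Nat.mul_comm, Nat.mul_add_div hL, Nat.div_eq_of_lt (mem_range.1 hx), add_zero]
  rw [this]

end Pool.Agent.Lib.HBP.L
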