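import Mathlib
import Pool.Agent.Lib.HBP.Level
import Pool.Agent.Lib.HBP.ThBound
import Pool.Agent.Lib.HBP.L.Hell
import Pool.Agent.Lib.HBP.L.Block
import Pool.Agent.Lib.HBP.L.Points

/-!
HAP part B, section LOCAL (helper69): the analytic inequality of one level.

With `Y' = b β #V`, `m = #C`, deficit, energy and variance at most `δ m`,
`∑_k (n_k/L) (∑_x csum)/(b (1+slo k)) ≤ 65 √(δ m Y') + 100 m (r + δ) + 2 m √(β/L)`.
-/

open Finset

namespace Pool.Agent.Lib.HBP.L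

/-- slope of a child (measured in the height function with offset). -/
theorem slo_child (Y ta : ℕ → ℕ) (L b k x : ℕ) :
    slo Y b (k * L + x) = ((Ak Y ta L b k (x + 1) : ℝ) - Ak Y ta L b k x) / b := by
  unfold slo Ak
  rw [← add_assoc]
  push_cast
  ring_nf

theorem slo_block (Y ta : ℕ → ℕ) (L b k : ℕ) (hL : 0 < L) (hb : 0 < b) :
    ((Ak Y ta L b k L : ℝ) - Ak Y ta L b k 0) / b = L * slo Y (L * b) k := by
  have hL0 : (L : ℝ) ≠ 0 := by exact_mod_cast hL.ne'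
  have hb0 : (b : ℝ) ≠ 0 := by exact_mod_cast hb.ne'
  unfold slo Ak
  have e1 : (k * L + L) * b = (k + 1) * (L * b) := by ring
  have e2 : (k * L + 0) * b = k * (L * b) := by ring
  rw [e1, e2]
  push_cast
  field_simp
  ring

theorem Ak_mono (Y ta : ℕ → ℕ) (hY : Monotone Y) (L b k : ℕ) : Monotone (Ak Y ta L b k) := by
  intro x y hxy
  unfold Ak
  have : (k * L + x) * b ≤ (k * L + y) * b := Nat.mul_le_mul_right _ (by omega)
  have := hY this
  omega

/-- the energies agree. -/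
theorem Ed_eq (Y ta : ℕ → ℕ) (hY : Monotone Y) (L b k : ℕ) (hL : 0 < L) (hb : 0 < b)
    (hm : 0 < slo Y (L * b) k) :
    Ed Y L b k / 2 = 1 - (1 / L) * ∑ x ∈ range L,
      √((((Ak Y ta L b k (x + 1) : ℝ) - Ak Y ta L b k x) / b) / slo Y (L * b) k) := by
  have hL0 : (L : ℝ) ≠ 0 := by exact_mod_cast hL.ne'
  unfold Ed
  set m := slo Y (L * b) k with hmdef
  have hbp : (0 : ℝ) < b := by exact_mod_cast hb
  have h0 : ∀ x, 0 ≤ slo Y b (k * L + x) := fun x => by
    rw [slo_child Y ta]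
    have : (Ak Y ta L b k x : ℝ) ≤ Ak Y ta L b k (x + 1) := by
      exact_mod_cast Ak_mono Y ta hY L b k (Nat.le_succ x)
    exact div_nonneg (by linarith) hbp.le
  have hs : ∑ x ∈ range L, slo Y b (k * L + x) = L * m := by
    rw [hmdef, ← slo_block Y ta L b k hL hb]
    simp only [slo_child Y ta]
    rw [← Finset.sum_div]
    congr 1
    exact Finset.sum_range_sub (fun x : ℕ => (Ak Y ta L b k x : ℝ)) L
  have e1 : ∑ x ∈ range L, (√(slo Y b (k * L + x) / m) - 1) ^ 2 =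
      ∑ x ∈ range L, (slo Y b (k * L + x) / m + 1 - 2 * √(slo Y b (k * L + x) / m)) := by
    refine Finset.sum_congr rfl fun x _ => ?_
    have := Real.mul_self_sqrt (div_nonneg (h0 x) hm.le)
    nlinarith
  rw [e1, Finset.sum_sub_distrib, Finset.sum_add_distrib, ← Finset.sum_div, hs, ← Finset.mul_sum]
  simp only [Finset.sum_const, card_range, nsmul_eq_mul, slo_child Y ta]
  field_simp
  ring

/-- the Hellinger distance is the deficit. -/
theorem hel_eq (C : Finset ℕ) (L b : ℕ) (hL : 0 < L) (𝓛 : Finset ℕ) :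
    hel (𝓛 ×ˢ range L) (fun p => (cnt C b (p.1 * L + p.2) : ℝ))
      (fun p => (cnt C (L * b) p.1 : ℝ) / L) = ∑ k ∈ 𝓛, cnt C (L * b) k * Hd C L b k := by
  unfold hel Hd
  rw [Finset.sum_product]
  refine Finset.sum_congr rfl fun k _ => ?_
  rw [Finset.mul_sum]
  refine Finset.sum_congr rfl fun x hx => ?_
  have hn0 : (0 : ℝ) ≤ cnt C (L * b) k := Nat.cast_nonneg _
  rcases hn0.eq_or_lt with h | h
  · have h1 : (cnt C b (k * L + x) : ℝ) = 0 := by
      have h2 := cnt_child C L b hL k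
      rw [← h] at h2
      exact (Finset.sum_eq_zero_iff_of_nonneg (fun _ _ => Nat.cast_nonneg _)).1 h2 x hx
    simp only [h1, ← h]
    simp
  · have hs := Real.sqrt_pos.2 h
    have e1 : √((cnt C b (k * L + x) : ℝ) / cnt C (L * b) k) =
        √(cnt C b (k * L + x) : ℝ) / √(cnt C (L * b) k) := Real.sqrt_div (Nat.cast_nonneg _) _
    have e2 : √((cnt C (L * b) k : ℝ) / L) = √(cnt C (L * b) k) * √(1 / L) := by
      rw [← Real.sqrt_mul hn0]
      congr 1
      ring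
    have e3 := Real.mul_self_sqrt hn0
    rw [e1, e2]
    field_simp
    rw [show √(cnt C (L * b) k : ℝ) ^ 2 = (cnt C (L * b) k : ℝ) by rw [sq]; exact e3]
    ring

/-- one chain element. -/
theorem point_err (V : Finset ℤ) {A0 A1 r b β z : ℕ} (hb : 0 < b) (hβ : 0 < β) (hA : A0 ≤ A1)
    (h1 : A0 + r * b ≤ z) (h2 : z < A1 + (r + 1) * b) :
    |Th V (((z / b : ℕ) : ℝ) / β) - Th V (((A0 + r * b : ℕ) : ℝ) / (β * b : ℕ))| ≤
      4 * min 1 (√((1 + ((A1 : ℝ) - A0) / b) / β)) := by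
  have hbp : (0 : ℝ) < b := by exact_mod_cast hb
  have hβp : (0 : ℝ) < β := by exact_mod_cast hβ
  have hAr : (A0 : ℝ) ≤ A1 := by exact_mod_cast hA
  set t : ℝ := ((A1 : ℝ) - A0) / b with ht
  have ht0 : 0 ≤ t := div_nonneg (by linarith) hbp.le
  have hbt : b * t = A1 - A0 := by rw [ht, mul_div_cancel₀ _ hbp.ne']
  rw [mul_min_of_nonneg _ _ (by norm_num : (0 : ℝ) ≤ 4)]
  refine le_min ?_ ?_
  · have h2 := abs_Th_le V (((z / b : ℕ) : ℝ) / β)
    have h3 := abs_Th_le V (((A0 + r * b : ℕ) : ℝ) / (β * b : ℕ))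
    rw [abs_le] at h2 h3 ⊢
    constructor <;> linarith [h2.1, h2.2, h3.1, h3.2]
  · refine (Th_holder V _ _).trans ?_
    refine mul_le_mul_of_nonneg_left (Real.sqrt_le_sqrt ?_) (by norm_num)
    have e1 : ((z / b : ℕ) : ℝ) / β - ((A0 + r * b : ℕ) : ℝ) / (β * b : ℕ) =
        (((z / b : ℕ) : ℝ) * b - (A0 + r * b : ℕ)) / (β * b) := by
      push_cast
      field_simp
    rw [e1, abs_div, abs_of_pos (mul_pos hβp hbp), div_le_div_iff₀ (mul_pos hβp hbp) hβp]
    have c1 : (((z / b : ℕ) : ℝ) * b) ≤ z := by exact_mod_cast Nat.div_mul_le_self z b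
    have c2 : (z : ℝ) < ((z / b : ℕ) : ℝ) * b + b := by exact_mod_cast Nat.lt_div_mul_add hb
    have c3 : ((A0 + r * b : ℕ) : ℝ) ≤ z := by exact_mod_cast h1
    have c4 : (z : ℝ) < ((A1 + (r + 1) * b : ℕ) : ℝ) := by exact_mod_cast h2
    push_cast at c3 c4 ⊢
    have c5 : |((z / b : ℕ) : ℝ) * b - (A0 + r * b)| ≤ b * (1 + t) := by
      rw [abs_le]
      constructor <;> nlinarith
    nlinarith [mul_le_mul_of_nonneg_right c5 hβp.le]

/-- the numerical part. -/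
theorem numeric {m r δ Yv D EE Xa Xb Sg : ℝ} (hδ0 : 0 ≤ δ) (hm0 : 0 ≤ m) (hr0 : 0 ≤ r)
    (hYv0 : 0 ≤ Yv) (hD0 : 0 ≤ D) (hDδ : D ≤ δ * m) (hEE0 : 0 ≤ EE) (hEδ : EE ≤ δ * m)
    (hXa0 : 0 ≤ Xa) (hXb0 : 0 ≤ Xb) (hSg1 : Sg ≤ 8 * m * r + 8 * D)
    (hXa1 : Xa ≤ 80 * Yv + 8 * Sg) (hXb1 : Xb ≤ 2 * Xa + 8 * D) :
    √(2 * D * (Xa + Xb)) + √(EE * (8 * EE + 8 * Xb)) + √(40 * (δ * m * Yv)) + Sg +
      32 * (m * r) + 32 * EE ≤ 65 * √(δ * m * Yv) + 100 * m * (r + δ) := by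
  have hδm : 0 ≤ δ * m := mul_nonneg hδ0 hm0
  have hmr : 0 ≤ m * r := mul_nonneg hm0 hr0
  obtain ⟨z, hz⟩ : ∃ z, z = m * (r + δ) := ⟨_, rfl⟩
  obtain ⟨d, hd⟩ : ∃ d, d = δ * m := ⟨_, rfl⟩
  have hz2 : z = m * r + d := by rw [hz, hd]; ring
  have e0 : 100 * m * (r + δ) = 100 * z := by rw [hz]; ring
  rw [e0]
  rw [← hd] at hDδ hEδ hδm ⊢
  have hz0 : 0 ≤ z := by linarith
  have hdz : d ≤ z := by linarith
  have hSg2 : Sg ≤ 8 * z := by linarith
  have hXa2 : Xa ≤ 80 * Yv + 64 * z := by linarith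
  have hXb2 : Xb ≤ 160 * Yv + 136 * z := by linarith
  have h3 := Real.sq_sqrt (mul_nonneg hδm hYv0)
  have h4 := Real.sqrt_nonneg (d * Yv)
  have h6 := mul_nonneg h4 hz0
  have h7 := mul_le_mul_of_nonneg_right hdz hz0
  have h8 := mul_nonneg hδm hYv0
  have sq1 : √(2 * D * (Xa + Xb)) ≤ 22 * √(d * Yv) + 20 * z := by
    have h1 : 2 * D * (Xa + Xb) ≤ 2 * d * (240 * Yv + 200 * z) :=
      mul_le_mul (by linarith) (by linarith) (by linarith) (by linarith)
    have h2 : 2 * d * (240 * Yv + 200 * z) ≤ (22 * √(d * Yv) + 20 * z) ^ 2 := by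
      nlinarith
    exact (Real.sqrt_le_sqrt (h1.trans h2)).trans_eq (Real.sqrt_sq (by linarith))
  have sq2 : √(EE * (8 * EE + 8 * Xb)) ≤ 36 * √(d * Yv) + 34 * z := by
    have h1 : EE * (8 * EE + 8 * Xb) ≤ d * (1280 * Yv + 1096 * z) :=
      mul_le_mul hEδ (by linarith) (by linarith) (by linarith)
    have h2 : d * (1280 * Yv + 1096 * z) ≤ (36 * √(d * Yv) + 34 * z) ^ 2 := by
      nlinarith
    exact (Real.sqrt_le_sqrt (h1.trans h2)).trans_eq (Real.sqrt_sq (by linarith))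
  have sq3 : √(40 * (d * Yv)) ≤ 7 * √(d * Yv) := by
    rw [Real.sqrt_le_left (mul_nonneg (by norm_num) (Real.sqrt_nonneg _)), mul_pow, h3]
    linarith
  have h9 : 32 * (m * r) ≤ 32 * z - 32 * d := by linarith
  linarith

theorem analytic {L b β Nb : ℕ} (hL : 0 < L) (hb : 0 < b) (hβ : 0 < β)
    (V : Finset ℤ) (Y ta : ℕ → ℕ) (hY : Monotone Y) (sg : ℕ → ℕ → ℕ) (C : Finset ℕ) (w : ℕ → ℕ)
    (hw : Set.InjOn w C) (hr : InRange Y ta sg L b C w) (𝓛 : Finset ℕ)
    (hM : ∀ q ∈ C, w q / b < Nb * L) (hpos : ∀ k ∈ 𝓛, 0 < slo Y (L * b) k) {r δ : ℝ} (hr0 : 0 ≤ r)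
    (hr1 : ∀ k ∈ 𝓛, √((1 + slo Y (L * b) k) / β) ≤ r) (hδ0 : 0 ≤ δ)
    (hH : ∑ k ∈ 𝓛, cnt C (L * b) k * Hd C L b k ≤ δ * C.card)
    (hE : ∑ k ∈ 𝓛, cnt C (L * b) k * Ed Y L b k ≤ δ * C.card)
    (hV : Vq C w L b 𝓛 Nb ≤ δ * C.card) :
    ∑ k ∈ 𝓛, (cnt C (L * b) k : ℝ) / L * ((∑ x ∈ range L,
      csum (fun v => Th V ((v : ℝ) / (β * b : ℕ))) (Ak Y ta L b k) b x (sg k x)) /
        (b * (1 + slo Y (L * b) k))) ≤
    65 * √(δ * C.card * (b * β * V.card)) + 100 * C.card * (r + δ) +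
      2 * C.card * √((β : ℝ) / L) := by
  have hLp : (0 : ℝ) < L := by exact_mod_cast hL
  have hbp : (0 : ℝ) < b := by exact_mod_cast hb
  have hβp : (0 : ℝ) < β := by exact_mod_cast hβ
  set m : ℝ := (C.card : ℝ) with hmdef
  have hm0 : 0 ≤ m := Nat.cast_nonneg _
  set n : ℕ → ℝ := fun k => (cnt C (L * b) k : ℝ) with hn
  set nn : ℕ → ℕ → ℝ := fun k x => (cnt C b (k * L + x) : ℝ) with hnn
  set F : ℕ → ℕ → ℝ := fun k x =>
    Th V (((Ak Y ta L b k x + sg k x * b : ℕ) : ℝ) / (β * b : ℕ)) with hF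
  set t : ℕ → ℕ → ℝ := fun k x => ((Ak Y ta L b k (x + 1) : ℝ) - Ak Y ta L b k x) / b with ht
  set g : ℕ → ℕ → ℝ := fun k x => 4 * min 1 (√((1 + t k x) / β)) with hg
  set φ : ℕ → ℝ := fun c => Th V ((c : ℝ) / β) with hφ
  have hn0 : ∀ k, 0 ≤ n k := fun k => Nat.cast_nonneg _
  have hnn0 : ∀ k x, 0 ≤ nn k x := fun k x => Nat.cast_nonneg _
  have ht0 : ∀ k x, 0 ≤ t k x := fun k x => by
    have : (Ak Y ta L b k x : ℝ) ≤ Ak Y ta L b k (x + 1) := by
      exact_mod_cast Ak_mono Y ta hY L b k (Nat.le_succ x)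
    exact div_nonneg (by linarith) hbp.le
  have hg0 : ∀ k x, 0 ≤ g k x := fun k x =>
    mul_nonneg (by norm_num) (le_min zero_le_one (Real.sqrt_nonneg _))
  have hg4 : ∀ k x, g k x ≤ 4 := fun k x => by
    have := min_le_left (1 : ℝ) (√((1 + t k x) / β))
    simp only [hg]
    linarith
  have hF2 : ∀ k x, F k x ^ 2 ≤ 4 := fun k x => by
    have := abs_le.1 (abs_Th_le V (((Ak Y ta L b k x + sg k x * b : ℕ) : ℝ) / (β * b : ℕ)))
    simp only [hF]
    nlinarith [this.1, this.2]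
  -- sums over the chain
  set Qs := chn C (L * b) 𝓛 with hQs
  have hnm : ∑ k ∈ 𝓛, n k ≤ m := by
    rw [hn, card_chn, hmdef]
    exact_mod_cast Finset.card_le_card (chn_sub C (L * b) 𝓛)
  have hMQ : ∀ q ∈ Qs, w q / b < Nb * L := fun q hq => hM q (chn_sub _ _ _ hq)
  have pe : ∀ q ∈ Qs, |φ (w q / b) - F (q / b / L) (q / b % L)| ≤ g (q / b / L) (q / b % L) := by
    intro q hq
    have h := hr q (chn_sub _ _ _ hq)
    exact point_err V hb hβ (Ak_mono Y ta hY L b _ (Nat.le_succ _)) h.1 h.2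
  -- error sum
  set Sg : ℝ := ∑ k ∈ 𝓛, ∑ x ∈ range L, nn k x * g k x with hSg
  have hsumt : ∀ k ∈ 𝓛, ∑ x ∈ range L, t k x = L * slo Y (L * b) k := by
    intro k _
    rw [← slo_block Y ta L b k hL hb, ht, ← Finset.sum_div]
    congr 1
    exact Finset.sum_range_sub (fun x : ℕ => (Ak Y ta L b k x : ℝ)) L
  set D : ℝ := ∑ k ∈ 𝓛, cnt C (L * b) k * Hd C L b k with hD
  have hhel := hel_eq C L b hL 𝓛
  rw [← hD] at hhel
  have hD0 : 0 ≤ D := by rw [← hhel]; exact hel_nonneg _ _ _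
  have hSg1 : Sg ≤ 8 * m * r + 8 * D := by
    have h1 := hel_change (𝓛 ×ˢ range L) (fun p => n p.1 / L) (fun p => nn p.1 p.2)
      (fun p => g p.1 p.2) (M := 4) (fun p _ => div_nonneg (hn0 _) hLp.le) (fun p _ => hnn0 _ _)
      (fun p _ => hg0 _ _) (fun p _ => hg4 _ _)
    rw [hel_symm, hhel, Finset.sum_product, Finset.sum_product] at h1
    have h2 : ∑ k ∈ 𝓛, ∑ x ∈ range L, n k / L * g k x ≤ 4 * m * r := by
      have h3 : ∀ k ∈ 𝓛, ∑ x ∈ range L, n k / L * g k x ≤ 4 * r * n k := by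
        intro k hk
        rw [← Finset.mul_sum]
        have h4 : ∑ x ∈ range L, g k x ≤ L * (4 * r) := by
          have h5 := sum_sqrt_le L (t k) (slo Y (L * b) k) (fun x _ => ht0 k x) (hpos k hk).le
            (hsumt k hk)
          have h6 : ∑ x ∈ range L, g k x ≤ ∑ x ∈ range L, 4 / √β * √(1 + t k x) := by
            refine Finset.sum_le_sum fun x _ => ?_
            simp only [hg]
            have h7 := min_le_right (1 : ℝ) (√((1 + t k x) / β))
            rw [Real.sqrt_div (by linarith [ht0 k x])] at h7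
            rw [Real.sqrt_div (by linarith [ht0 k x])]
            calc 4 * min 1 (√(1 + t k x) / √β) ≤ 4 * (√(1 + t k x) / √β) := by linarith
              _ = _ := by ring
          have h6' : ∑ x ∈ range L, g k x ≤ 4 / √β * ∑ x ∈ range L, √(1 + t k x) := by
            rw [Finset.mul_sum]
            exact h6
          have h8 := hr1 k hk
          rw [Real.sqrt_div (by linarith [hpos k hk])] at h8
          have hsβ : 0 < √(β : ℝ) := Real.sqrt_pos.2 hβp
          calc _ ≤ 4 / √β * ∑ x ∈ range L, √(1 + t k x) := h6'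
            _ ≤ 4 / √β * (L * √(1 + slo Y (L * b) k)) := by gcongr
            _ = L * (4 * (√(1 + slo Y (L * b) k) / √β)) := by ring
            _ ≤ L * (4 * r) := by gcongr
        calc n k / L * ∑ x ∈ range L, g k x ≤ n k / L * (L * (4 * r)) :=
              mul_le_mul_of_nonneg_left h4 (div_nonneg (hn0 _) hLp.le)
          _ = 4 * r * n k := by field_simp
      refine (Finset.sum_le_sum h3).trans ?_
      rw [← Finset.mul_sum]
      nlinarith [mul_le_mul_of_nonneg_left hnm hr0]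
    simp only [hSg]
    linarith
  have hSg0 : 0 ≤ Sg := Finset.sum_nonneg fun k _ => Finset.sum_nonneg fun x _ =>
    mul_nonneg (hnn0 _ _) (hg0 _ _)
  -- norm of the test function
  set Yv : ℝ := b * β * V.card with hYv
  have hYv0 : 0 ≤ Yv := by positivity
  have hnorm : ∑ c ∈ range (Nb * L), φ c ^ 2 ≤ 40 * β * V.card := Th_sum_sq V β hβ (Nb * L)
  set N : ℕ → ℝ := fun c => (ncell C w (L * b) 𝓛 b c : ℝ) with hN
  have hN0 : ∀ c, 0 ≤ N c := fun c => Nat.cast_nonneg _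
  have hNb : ∀ c, N c ≤ b := fun c => by
    simp only [hN]
    exact_mod_cast ncell_le C w hw (L * b) 𝓛 b c hb
  have hNsum : ∀ f : ℕ → ℝ, ∑ c ∈ range (Nb * L), N c * f c = ∑ q ∈ Qs, f (w q / b) := fun f =>
    sum_ncell C w (L * b) 𝓛 b (Nb * L) hMQ f
  -- upper bound
  have hup : ∑ q ∈ Qs, φ (w q / b) ≤ √(40 * (δ * m * Yv)) + 2 * m * √((β : ℝ) / L) := by
    rw [← hNsum φ]
    have h1 := cell_upper Nb L hL N φ (2 * √(β * L)) hN0 (fun c _ => by
      have h2 := Th_cell V β hβ (c * L) L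
      rw [Finset.sum_Ico_eq_sum_range, Nat.add_sub_cancel_left] at h2
      exact h2)
    have h2 : vari Nb L N * ∑ v ∈ range (Nb * L), φ v ^ 2 ≤ 40 * (δ * m * Yv) := by
      have h3 := Vq_eq C w L b hL 𝓛 Nb
      have h4 : vari Nb L N ≤ b * (δ * m) := by
        rw [h3] at hV
        have h5 : 1 / (b : ℝ) * vari Nb L N ≤ δ * m := hV
        rw [one_div, inv_mul_le_iff₀ hbp] at h5
        exact h5
      have h6 : 0 ≤ ∑ v ∈ range (Nb * L), φ v ^ 2 := Finset.sum_nonneg fun _ _ => sq_nonneg _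
      calc _ ≤ b * (δ * m) * (40 * β * V.card) :=
            mul_le_mul h4 hnorm h6 (by positivity)
        _ = _ := by simp only [hYv]; ring
    have h3 : ∑ v ∈ range (Nb * L), N v ≤ m := by
      have := hNsum (fun _ => 1)
      simp only [mul_one, Finset.sum_const, nsmul_eq_mul] at this
      rw [this, hmdef]
      exact_mod_cast Finset.card_le_card (chn_sub C (L * b) 𝓛)
    have h4 : (∑ v ∈ range (Nb * L), N v) / L * (2 * √(β * L)) ≤ 2 * m * √((β : ℝ) / L) := by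
      have e1 : √((β : ℝ) / L) = √(β * L) / L := by
        rw [show (β : ℝ) / L = β * L / L ^ 2 by field_simp, Real.sqrt_div (by positivity),
          Real.sqrt_sq hLp.le]
      rw [e1]
      calc _ ≤ m / L * (2 * √(β * L)) := by gcongr
        _ = _ := by ring
    exact h1.trans (add_le_add (Real.sqrt_le_sqrt h2) h4)
  -- lower bound for the chain sum
  have hlow : ∑ k ∈ 𝓛, ∑ x ∈ range L, nn k x * F k x - Sg ≤ ∑ q ∈ Qs, φ (w q / b) := by
    have h1 := sum_child C L b hL 𝓛 (fun k x => F k x - g k x)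
    have h2 : ∑ k ∈ 𝓛, ∑ x ∈ range L, nn k x * F k x - Sg =
        ∑ q ∈ Qs, (F (q / b / L) (q / b % L) - g (q / b / L) (q / b % L)) := by
      rw [hQs, h1, hSg, ← Finset.sum_sub_distrib]
      refine Finset.sum_congr rfl fun k _ => ?_
      rw [← Finset.sum_sub_distrib]
      exact Finset.sum_congr rfl fun x _ => by ring
    rw [h2]
    refine Finset.sum_le_sum fun q hq => ?_
    have := (abs_le.1 (pe q hq)).1
    linarith
  -- squares
  set Xa : ℝ := ∑ k ∈ 𝓛, ∑ x ∈ range L, nn k x * F k x ^ 2 with hXa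
  set Xb : ℝ := ∑ k ∈ 𝓛, ∑ x ∈ range L, n k / L * F k x ^ 2 with hXb
  have hXa0 : 0 ≤ Xa := Finset.sum_nonneg fun k _ => Finset.sum_nonneg fun x _ =>
    mul_nonneg (hnn0 _ _) (sq_nonneg _)
  have hXb0 : 0 ≤ Xb := Finset.sum_nonneg fun k _ => Finset.sum_nonneg fun x _ =>
    mul_nonneg (div_nonneg (hn0 _) hLp.le) (sq_nonneg _)
  have hXa1 : Xa ≤ 80 * Yv + 8 * Sg := by
    have h1 := sum_child C L b hL 𝓛 (fun k x => F k x ^ 2)
    have h2 := sum_child C L b hL 𝓛 (fun k x => g k x)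
    have h3 : Xa ≤ ∑ q ∈ Qs, (2 * φ (w q / b) ^ 2 + 8 * g (q / b / L) (q / b % L)) := by
      simp only [hXa, hnn]
      rw [← h1]
      refine Finset.sum_le_sum fun q hq => ?_
      have a1 := abs_le.1 (pe q hq)
      have a2 := hg0 (q / b / L) (q / b % L)
      have a3 := hg4 (q / b / L) (q / b % L)
      have a4 : (φ (w q / b) - F (q / b / L) (q / b % L)) ^ 2 ≤ g (q / b / L) (q / b % L) ^ 2 := by
        rw [← sq_abs (φ (w q / b) - _)]
        exact pow_le_pow_left₀ (abs_nonneg _) (pe q hq) 2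
      nlinarith [sq_nonneg (F (q / b / L) (q / b % L) - 2 * φ (w q / b))]
    rw [Finset.sum_add_distrib, ← Finset.mul_sum, ← Finset.mul_sum, hQs, h2] at h3
    have h4 : ∑ q ∈ chn C (L * b) 𝓛, φ (w q / b) ^ 2 ≤ 40 * Yv := by
      have h5 := hNsum (fun c => φ c ^ 2)
      rw [← hQs, ← h5]
      calc ∑ c ∈ range (Nb * L), N c * φ c ^ 2 ≤ ∑ c ∈ range (Nb * L), b * φ c ^ 2 :=
            Finset.sum_le_sum fun c _ => mul_le_mul_of_nonneg_right (hNb c) (sq_nonneg _)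
        _ = b * ∑ c ∈ range (Nb * L), φ c ^ 2 := by rw [Finset.mul_sum]
        _ ≤ b * (40 * β * V.card) := mul_le_mul_of_nonneg_left hnorm hbp.le
        _ = _ := by simp only [hYv]; ring
    simp only [hSg, hnn]
    linarith
  have hXb1 : Xb ≤ 2 * Xa + 8 * D := by
    have h1 := hel_change (𝓛 ×ˢ range L) (fun p => nn p.1 p.2) (fun p => n p.1 / L)
      (fun p => F p.1 p.2 ^ 2) (M := 4) (fun p _ => hnn0 _ _)
      (fun p _ => div_nonneg (hn0 _) hLp.le) (fun p _ => sq_nonneg _) (fun p _ => hF2 _ _)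
    rw [hhel, Finset.sum_product, Finset.sum_product] at h1
    linarith
  -- Hellinger
  have hhd : ∑ k ∈ 𝓛, ∑ x ∈ range L, n k / L * F k x ≤
      ∑ k ∈ 𝓛, ∑ x ∈ range L, nn k x * F k x + √(2 * D * (Xa + Xb)) := by
    have h1 := hel_diff (𝓛 ×ˢ range L) (fun p => nn p.1 p.2) (fun p => n p.1 / L)
      (fun p => F p.1 p.2) (fun p _ => hnn0 _ _) (fun p _ => div_nonneg (hn0 _) hLp.le)
    rw [hhel, Finset.sum_product, Finset.sum_product, Finset.sum_product, Finset.sum_product] at h1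
    have h2 := Real.abs_le_sqrt h1
    have := (abs_le.1 h2).1
    linarith
  -- one block
  have hblock : ∀ k ∈ 𝓛, n k / L * ((∑ x ∈ range L,
      csum (fun v => Th V ((v : ℝ) / (β * b : ℕ))) (Ak Y ta L b k) b x (sg k x)) /
        (b * (1 + slo Y (L * b) k))) ≤
      ∑ x ∈ range L, n k / L * F k x +
      √(n k * Ed Y L b k * (8 * (n k * Ed Y L b k) + 8 * ∑ x ∈ range L, n k / L * F k x ^ 2)) +
      32 * r * n k + 32 * (n k * Ed Y L b k) := by
    intro k hk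
    have hbl := block_lower V (Ak Y ta L b k) b β L (sg k) (slo Y (L * b) k) (Ed Y L b k / 2)
      hb hβ hL (fun x _ => Ak_mono Y ta hY L b k (Nat.le_succ x)) (hpos k hk)
      (slo_block Y ta L b k hL hb) (Ed_eq Y ta hY L b k hL hb (hpos k hk))
    have h1 := mul_le_mul_of_nonneg_left hbl (div_nonneg (hn0 k) hLp.le)
    refine h1.trans ?_
    have e1 : n k / L * √(2 * L * (Ed Y L b k / 2) * (16 * L * (Ed Y L b k / 2) +
        8 * ∑ x ∈ range L, Th V (((Ak Y ta L b k x + sg k x * b : ℕ) : ℝ) / (β * b : ℕ)) ^ 2)) =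
        √(n k * Ed Y L b k * (8 * (n k * Ed Y L b k) + 8 * ∑ x ∈ range L, n k / L * F k x ^ 2)) := by
      rw [← Real.sqrt_sq (div_nonneg (hn0 k) hLp.le), ← Real.sqrt_mul (sq_nonneg _)]
      congr 1
      rw [← Finset.mul_sum, Real.sqrt_sq (div_nonneg (hn0 k) hLp.le)]
      simp only [hF]
      field_simp
      ring
    have h8 := hr1 k hk
    have e2 : n k / L * (32 * L * √((1 + slo Y (L * b) k) / β)) ≤ 32 * r * n k := by
      have : n k / L * (32 * L * √((1 + slo Y (L * b) k) / β)) =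
        32 * n k * √((1 + slo Y (L * b) k) / β) := by field_simp
      rw [this]
      nlinarith [mul_le_mul_of_nonneg_left h8 (hn0 k)]
    have e3 : n k / L * (64 * L * (Ed Y L b k / 2)) = 32 * (n k * Ed Y L b k) := by
      field_simp
      ring
    rw [mul_add, mul_add, mul_add, e1, e3, Finset.mul_sum]
    linarith
  have hEd0 : ∀ k, 0 ≤ Ed Y L b k := fun k => by
    unfold Ed
    exact mul_nonneg (by positivity) (Finset.sum_nonneg fun _ _ => sq_nonneg _)
  -- sum over blocks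
  set EE : ℝ := ∑ k ∈ 𝓛, cnt C (L * b) k * Ed Y L b k with hEE
  have hEE0 : 0 ≤ EE := Finset.sum_nonneg fun k _ => mul_nonneg (hn0 k) (hEd0 k)
  have hcs : ∑ k ∈ 𝓛, √(n k * Ed Y L b k * (8 * (n k * Ed Y L b k) +
      8 * ∑ x ∈ range L, n k / L * F k x ^ 2)) ≤ √(EE * (8 * EE + 8 * Xb)) := by
    have h1 := sum_sqrt_mul_le 𝓛 (fun k => n k * Ed Y L b k) (fun k => 8 * (n k * Ed Y L b k) +
      8 * ∑ x ∈ range L, n k / L * F k x ^ 2) (fun k _ => mul_nonneg (hn0 k) (hEd0 k))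
      (fun k _ => add_nonneg (mul_nonneg (by norm_num) (mul_nonneg (hn0 k) (hEd0 k)))
        (mul_nonneg (by norm_num) (Finset.sum_nonneg fun x _ =>
          mul_nonneg (div_nonneg (hn0 k) hLp.le) (sq_nonneg _))))
    rw [Finset.sum_add_distrib, ← Finset.mul_sum, ← Finset.mul_sum] at h1
    exact h1
  have hsum := Finset.sum_le_sum hblock
  rw [Finset.sum_add_distrib, Finset.sum_add_distrib, Finset.sum_add_distrib, ← Finset.mul_sum,
    ← Finset.mul_sum] at hsum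
  refine hsum.trans ?_
  have h9 := numeric hδ0 hm0 hr0 hYv0 hD0 hH hEE0 hE hXa0 hXb0 hSg1 hXa1 hXb1
  have hrn : 32 * r * ∑ k ∈ 𝓛, n k ≤ 32 * (m * r) := by
    have := mul_le_mul_of_nonneg_left hnm hr0
    linarith
  have e5 : ∑ k ∈ 𝓛, n k * Ed Y L b k = EE := rfl
  rw [e5]
  linarith

end Pool.Agent.Lib.HBP.L
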