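import Mathlib
import Pool.Agent.Lib.HBP.Level
import Pool.Agent.Lib.HBP.PsiF
import Pool.Agent.Lib.HBP.SgDisj

/-!
HAP part B, section LOCAL (helper69): the energies seen by the arcs of one block add up to at most
`(6/a) ∑ psi`.

PROOF.  The columns `arcA s l` are pairwise different (they are in disjoint intervals if `u1 = 1`, and have
residue `2 (s mod U) + 1` modulo `2 U`, and distance `≥ (U - 1/2) Dh a` for equal residues, if `u1 = U > 1`);
same for `arcB`.  A column `x` is in `[arcA s 0, arcA s M)` only for `x/(Dh a) - u1 ≤ s ≤ x/(Dh a)`.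
-/

open Finset

namespace Pool.Agent.Lib.HBP.L

theorem inj_sum (n m L : ℕ) (c : ℕ → ℕ → ℕ) (G : ℕ → ℝ) (hG : ∀ x, 0 ≤ G x)
    (hc : ∀ s < n, ∀ l < m, c s l < L)
    (hinj : ∀ s < n, ∀ s' < n, ∀ l < m, ∀ l' < m, c s l = c s' l' → s = s' ∧ l = l') :
    ∑ s ∈ range n, ∑ l ∈ range m, G (c s l) ≤ ∑ x ∈ range L, G x := by
  rw [← Finset.sum_product' (range n) (range m) (fun s l => G (c s l))]
  have h1 : ∑ p ∈ range n ×ˢ range m, G (c p.1 p.2) =
      ∑ x ∈ (range n ×ˢ range m).image (fun p => c p.1 p.2), G x := by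
    rw [Finset.sum_image]
    rintro ⟨s, l⟩ h ⟨s', l'⟩ h' he
    simp only [Finset.coe_product, Finset.coe_range, Set.mem_prod, Set.mem_Iio] at h h'
    have := hinj s h.1 s' h'.1 l h.2 l' h'.2 he
    rw [this.1, this.2]
  rw [h1]
  refine Finset.sum_le_sum_of_subset_of_nonneg ?_ (fun x _ _ => hG x)
  intro x hx
  rw [Finset.mem_image] at hx
  obtain ⟨⟨s, l⟩, hp, rfl⟩ := hx
  rw [Finset.mem_product, Finset.mem_range, Finset.mem_range] at hp
  exact Finset.mem_range.2 (hc s hp.1 l hp.2)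

theorem cover_sum (n L k : ℕ) (lo hi : ℕ → ℕ) (G : ℕ → ℝ) (hG : ∀ x, 0 ≤ G x)
    (hhi : ∀ s < n, hi s ≤ L)
    (hk : ∀ x, ((range n).filter fun s => lo s ≤ x ∧ x < hi s).card ≤ k) :
    ∑ s ∈ range n, ∑ x ∈ Finset.Ico (lo s) (hi s), G x ≤ k * ∑ x ∈ range L, G x := by
  have h1 : ∑ s ∈ range n, ∑ x ∈ Finset.Ico (lo s) (hi s), G x =
      ∑ s ∈ range n, ∑ x ∈ range L, if lo s ≤ x ∧ x < hi s then G x else 0 := by
    refine Finset.sum_congr rfl fun s hs => ?_
    rw [← Finset.sum_filter]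
    refine Finset.sum_congr ?_ fun _ _ => rfl
    ext x
    have := hhi s (mem_range.1 hs)
    simp only [Finset.mem_Ico, Finset.mem_filter, Finset.mem_range]
    constructor
    · intro h; exact ⟨by omega, h⟩
    · exact fun h => h.2
  rw [h1, Finset.sum_comm, Finset.mul_sum]
  refine Finset.sum_le_sum fun x _ => ?_
  rw [← Finset.sum_filter, Finset.sum_const, nsmul_eq_mul]
  exact mul_le_mul_of_nonneg_right (by exact_mod_cast hk x) (hG x)

/-- covering number of the ranges. -/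
theorem cover_card (n D a u : ℕ) (hDa : 0 < D * a) (lo hi : ℕ → ℕ)
    (hlo : ∀ s < n, s * (D * a) ≤ lo s) (hhi : ∀ s < n, hi s ≤ (s + 1 + u) * (D * a)) (x : ℕ) :
    ((range n).filter fun s => lo s ≤ x ∧ x < hi s).card ≤ u + 1 := by
  refine (Finset.card_le_card (t := Finset.Icc (x / (D * a) - u) (x / (D * a))) ?_).trans ?_
  · intro s hs
    rw [Finset.mem_filter, Finset.mem_range] at hs
    obtain ⟨h1, h2, h3⟩ := hs
    rw [Finset.mem_Icc]
    constructor
    · have h4 : x < (s + 1 + u) * (D * a) := lt_of_lt_of_le h3 (hhi s h1)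
      have h5 : x / (D * a) < s + 1 + u := (Nat.div_lt_iff_lt_mul hDa).2 h4
      omega
    · exact (Nat.le_div_iff_mul_le hDa).2 ((hlo s h1).trans h2)
  · rw [Nat.card_Icc]
    omega

/-- the energies seen by the arcs of a block. -/
theorem arcE_sum {h h' K2 G a L J0 Q u1 u2 : ℕ} (P : Par h h' K2 G a L J0 Q) (hc : Cls u1 u2 J0)
    (pos : ℕ → ℕ) (hpos : ∀ s, pos s < Dh h / 2) (A : ℕ → ℕ) (b : ℕ) (lam : ℝ) :
    ∑ s ∈ range (nsl h G a L u1 u2), arcE A b lam a u1 u2 (arcA h a u1 u2 pos s)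
      (arcB h a u1 u2 pos s) (Mh h a) ≤ 6 / a * ∑ x ∈ range L, psi (du A b lam x) := by
  set n := nsl h G a L u1 u2 with hn
  set S : ℝ := ∑ x ∈ range L, psi (du A b lam x) with hS
  have hψ : ∀ x, 0 ≤ psi (du A b lam x) := fun x => psi_nonneg _
  have hS0 : 0 ≤ S := Finset.sum_nonneg fun x _ => hψ x
  obtain ⟨i, hi, hU⟩ := hc.pow
  have h4i : 1 ≤ 4 ^ i := Nat.one_le_pow _ _ (by norm_num)
  have hu1 : 1 ≤ u1 := by
    rcases Nat.eq_zero_or_pos u1 with h0 | h0
    · rw [h0, zero_mul] at hU; omega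
    · exact h0
  have hu2 : 1 ≤ u2 := by
    rcases Nat.eq_zero_or_pos u2 with h0 | h0
    · rw [h0, mul_zero] at hU; omega
    · exact h0
  have hh' : 1 ≤ h' := by
    have := P.hG
    have := P.Gpos
    nlinarith
  have hh : 1 ≤ h := by
    rw [P.hh]
    exact Nat.mul_pos P.K2pos hh'
  have hQ : 1 ≤ Q := by
    have h1 := P.hQ
    have h2 : 1 ≤ 10 ^ 60 * h ^ 4 * G * K2 * 4 ^ J0 := by
      have := P.Gpos
      have := P.K2pos
      have h3 : 1 ≤ 4 ^ J0 := Nat.one_le_pow _ _ (by norm_num)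
      have h4 : 1 ≤ h ^ 4 := Nat.one_le_pow _ _ hh
      have h5 : 0 < 10 ^ 60 * h ^ 4 * G * K2 * 4 ^ J0 := by positivity
      omega
    omega
  have ha : 1 ≤ a := le_trans (Nat.one_le_pow _ _ hQ) P.ha
  have hap : (0 : ℝ) < a := by exact_mod_cast ha
  have h2U : u1 * u2 * 2 ≤ a := by
    have h1 := Nat.le_of_dvd ha P.hdiv
    have h2 : u1 * u2 ≤ 4 ^ J0 := by
      rw [hU]; exact Nat.pow_le_pow_right (by norm_num) hi
    omega
  have hD : 10 ^ 26 * h ^ 2 ≤ Dh h := by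
    unfold Dh
    rw [pow_succ h 2]
    nlinarith [Nat.pos_of_ne_zero (by positivity : h ^ 2 ≠ 0)]
  have hDpos : 0 < Dh h := lt_of_lt_of_le (by positivity) hD
  have hDa : 0 < Dh h * a := Nat.mul_pos hDpos ha
  -- the two families of columns
  have s1 : ∑ s ∈ range n, ∑ l ∈ range (Mh h a + 1), psi (du A b lam (arcA h a u1 u2 pos s l)) ≤ S :=
    inj_sum n (Mh h a + 1) L (arcA h a u1 u2 pos) (fun x => psi (du A b lam x)) hψ
      (fun s hs l hl => arcA_lt P hc pos hpos hs (by omega))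
      (fun s _ s' _ l hl l' hl' he => arcA_inj P hc pos hpos (by omega) (by omega) he)
  have s2 : ∑ s ∈ range n, ∑ l ∈ range (Mh h a + 1), psi (du A b lam (arcB h a u1 u2 pos s l)) ≤ S :=
    inj_sum n (Mh h a + 1) L (arcB h a u1 u2 pos) (fun x => psi (du A b lam x)) hψ
      (fun s hs l hl => arcB_lt P hc pos hpos hs (by omega))
      (fun s _ s' _ l hl l' hl' he => arcB_inj P hc pos hpos (by omega) (by omega) he)
  -- ranges
  have base : ∀ s, (s * Dh h + pos s) * a + (34 * h ^ 2 * a + 2 * (s % (u1 * u2)) + 1) ≤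
      (s + 1) * (Dh h * a) := by
    intro s
    have hp := hpos s
    have hp2 : 2 * pos s ≤ Dh h := by omega
    have h1 : s % (u1 * u2) < u1 * u2 := Nat.mod_lt _ (Nat.mul_pos hu1 hu2)
    have h2 : 2 * (pos s * a) ≤ Dh h * a := by nlinarith
    have h3 : 10 ^ 26 * (h ^ 2 * a) ≤ Dh h * a := by nlinarith
    have h4 : a ≤ h ^ 2 * a := by nlinarith [Nat.one_le_pow 2 h hh]
    have e1 : (s * Dh h + pos s) * a + (34 * h ^ 2 * a + 2 * (s % (u1 * u2)) + 1) =
      s * (Dh h * a) + (pos s * a + 34 * (h ^ 2 * a) + 2 * (s % (u1 * u2)) + 1) := by ring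
    rw [e1, add_mul, one_mul]
    refine Nat.add_le_add_left ?_ _
    omega
  have rngA : ∀ u : ℕ, 33 * h ^ 2 * a * u ≤ u * (Dh h * a) := by
    intro u
    have h3 : 10 ^ 26 * (h ^ 2 * a) ≤ Dh h * a := by nlinarith
    have h5 : 33 * (h ^ 2 * a) ≤ Dh h * a := by omega
    nlinarith
  have hM2 : 2 * Mh h a ≤ h ^ 2 * a := by unfold Mh; omega
  have loA : ∀ s, s * (Dh h * a) ≤ arcA h a u1 u2 pos s 0 := by
    intro s
    unfold arcA al
    nlinarith [Nat.zero_le (pos s * a), Nat.zero_le (if u1 = 1 then 0 else 34 * h ^ 2 * a + 2 * (s % (u1 * u2)) + 1)]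
  have hiA : ∀ s, arcA h a u1 u2 pos s (Mh h a) ≤ (s + 1 + u1) * (Dh h * a) := by
    intro s
    have h1 := base s
    have h2 := rngA u1
    unfold arcA al
    have h3 : (if u1 = 1 then 0 else 34 * h ^ 2 * a + 2 * (s % (u1 * u2)) + 1) ≤
        34 * h ^ 2 * a + 2 * (s % (u1 * u2)) + 1 := by split_ifs <;> omega
    have h4 : 16 * u1 * Mh h a ≤ 33 * h ^ 2 * a * u1 := by nlinarith
    nlinarith
  have loB : ∀ s, s * (Dh h * a) ≤ arcB h a u1 u2 pos s (Mh h a) := by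
    intro s
    unfold arcB be
    nlinarith [Nat.zero_le (pos s * a), Nat.zero_le (2 * u2 * Nl h a (Mh h a)), Nat.zero_le (if u1 = 1 then 34 * h ^ 2 * a + 2 * (s % (u1 * u2)) + 1 else 0)]
  have hiB : ∀ s, arcB h a u1 u2 pos s 0 ≤ (s + 1 + u2) * (Dh h * a) := by
    intro s
    have h1 := base s
    have h2 := rngA u2
    unfold arcB be
    have h3 : (if u1 = 1 then 34 * h ^ 2 * a + 2 * (s % (u1 * u2)) + 1 else 0) ≤
        34 * h ^ 2 * a + 2 * (s % (u1 * u2)) + 1 := by split_ifs <;> omega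
    have h4 : 2 * Nl h a 0 ≤ 33 * h ^ 2 * a := by
      have h6 : Nl h a 0 ≤ 33 * h ^ 2 * a / 2 := by
        unfold Nl
        exact (Nat.sub_le _ _).trans (Nat.sub_le _ _)
      omega
    have h5 : 2 * u2 * Nl h a 0 ≤ 33 * h ^ 2 * a * u2 := by nlinarith
    nlinarith
  have s3 : ∑ s ∈ range n, ∑ x ∈ Finset.Ico (arcA h a u1 u2 pos s 0)
      (arcA h a u1 u2 pos s (Mh h a)), psi (du A b lam x) ≤ ((u1 + 1 : ℕ) : ℝ) * S :=
    cover_sum n L (u1 + 1) _ _ (fun x => psi (du A b lam x)) hψ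
      (fun s hs => (arcA_lt P hc pos hpos hs le_rfl).le)
      (fun x => cover_card n (Dh h) a u1 hDa (fun s => arcA h a u1 u2 pos s 0)
        (fun s => arcA h a u1 u2 pos s (Mh h a)) (fun s _ => loA s) (fun s _ => hiA s) x)
  have s4 : ∑ s ∈ range n, ∑ x ∈ Finset.Ico (arcB h a u1 u2 pos s (Mh h a))
      (arcB h a u1 u2 pos s 0), psi (du A b lam x) ≤ ((u2 + 1 : ℕ) : ℝ) * S :=
    cover_sum n L (u2 + 1) _ _ (fun x => psi (du A b lam x)) hψ
      (fun s hs => (arcB_lt P hc pos hpos hs (Nat.zero_le _)).le)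
      (fun x => cover_card n (Dh h) a u2 hDa (fun s => arcB h a u1 u2 pos s (Mh h a))
        (fun s => arcB h a u1 u2 pos s 0) (fun s _ => loB s) (fun s _ => hiB s) x)
  have hu1p : (1 : ℝ) ≤ u1 := by exact_mod_cast hu1
  have hu2p : (1 : ℝ) ≤ u2 := by exact_mod_cast hu2
  have e1 : ∑ s ∈ range n, arcE A b lam a u1 u2 (arcA h a u1 u2 pos s)
      (arcB h a u1 u2 pos s) (Mh h a) =
      1 / a * (∑ s ∈ range n, ∑ l ∈ range (Mh h a + 1), psi (du A b lam (arcA h a u1 u2 pos s l)) +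
        ∑ s ∈ range n, ∑ l ∈ range (Mh h a + 1), psi (du A b lam (arcB h a u1 u2 pos s l))) +
      1 / (u1 * a) * ∑ s ∈ range n, ∑ x ∈ Finset.Ico (arcA h a u1 u2 pos s 0)
        (arcA h a u1 u2 pos s (Mh h a)), psi (du A b lam x) +
      1 / (u2 * a) * ∑ s ∈ range n, ∑ x ∈ Finset.Ico (arcB h a u1 u2 pos s (Mh h a))
        (arcB h a u1 u2 pos s 0), psi (du A b lam x) := by
    unfold arcE
    rw [Finset.sum_add_distrib, Finset.sum_add_distrib, ← Finset.mul_sum, ← Finset.mul_sum,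
      ← Finset.mul_sum, ← Finset.sum_add_distrib]
    congr 3
    exact Finset.sum_congr rfl fun s _ => Finset.sum_add_distrib
  rw [e1]
  have t3 : 1 / (u1 * a : ℝ) * ∑ s ∈ range n, ∑ x ∈ Finset.Ico (arcA h a u1 u2 pos s 0)
      (arcA h a u1 u2 pos s (Mh h a)), psi (du A b lam x) ≤ 2 / a * S := by
    calc _ ≤ 1 / (u1 * a : ℝ) * (((u1 + 1 : ℕ) : ℝ) * S) :=
          mul_le_mul_of_nonneg_left s3 (by positivity)
      _ ≤ 1 / (u1 * a : ℝ) * ((2 * u1) * S) := by
          refine mul_le_mul_of_nonneg_left (mul_le_mul_of_nonneg_right ?_ hS0) (by positivity)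
          push_cast
          linarith
      _ = 2 / a * S := by field_simp
  have t4 : 1 / (u2 * a : ℝ) * ∑ s ∈ range n, ∑ x ∈ Finset.Ico (arcB h a u1 u2 pos s (Mh h a))
      (arcB h a u1 u2 pos s 0), psi (du A b lam x) ≤ 2 / a * S := by
    calc _ ≤ 1 / (u2 * a : ℝ) * (((u2 + 1 : ℕ) : ℝ) * S) :=
          mul_le_mul_of_nonneg_left s4 (by positivity)
      _ ≤ 1 / (u2 * a : ℝ) * ((2 * u2) * S) := by
          refine mul_le_mul_of_nonneg_left (mul_le_mul_of_nonneg_right ?_ hS0) (by positivity)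
          push_cast
          linarith
      _ = 2 / a * S := by field_simp
  have t1 : 1 / (a : ℝ) * (∑ s ∈ range n, ∑ l ∈ range (Mh h a + 1),
      psi (du A b lam (arcA h a u1 u2 pos s l)) +
        ∑ s ∈ range n, ∑ l ∈ range (Mh h a + 1), psi (du A b lam (arcB h a u1 u2 pos s l))) ≤
      1 / a * (S + S) := mul_le_mul_of_nonneg_left (add_le_add s1 s2) (by positivity)
  calc _ ≤ 1 / a * (S + S) + 2 / a * S + 2 / a * S := add_le_add (add_le_add t1 t3) t4
    _ = 6 / a * S := by ring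

end Pool.Agent.Lib.HBP.L
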