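import Mathlib
import Pool.Agent.Lib.HBP.MArc
import Pool.Agent.Lib.HBP.L.ArcSum
import Pool.Agent.Lib.HBP.L.Analytic

/-!
HAP part B, section LOCAL (helper69): lower bound for `∑ csum` of one matched block.

PROOF.  `Real1`: `∑ csum (sg x) = ∑ csum x + ∑ arcD`; the first sum is the sum of `Th V` over an interval of
length `L b (1 + m)` (`Th_cell`), the arcs are estimated by `arc_lower`, the energies by `arcE_sum`,
`psi_energy`.
-/

open Finset

namespace Pool.Agent.Lib.HBP.L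

/-- elementary consequences of the parameter conditions. -/
theorem par_facts {h h' K2 G a L J0 Q : ℕ} (P : Par h h' K2 G a L J0 Q) :
    1 ≤ h' ∧ 1 ≤ h ∧ 1 ≤ Q ∧ 1 ≤ a ∧ 1 ≤ L ∧ 2 ∣ a := by
  have hh' : 1 ≤ h' := by
    have := P.hG
    have := P.Gpos
    nlinarith
  have hh : 1 ≤ h := by
    rw [P.hh]
    exact Nat.mul_pos P.K2pos hh'
  have hQ : 1 ≤ Q := by
    have h1 := P.hQ
    have h2 : 1 ≤ 10 ^ 60 * h ^ 4 * G * K2 * 4 ^ J0 := by
      have := P.Gpos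
      have := P.K2pos
      have h3 : 1 ≤ 4 ^ J0 := Nat.one_le_pow _ _ (by norm_num)
      have h4 : 1 ≤ h ^ 4 := Nat.one_le_pow _ _ hh
      have h5 : 0 < 10 ^ 60 * h ^ 4 * G * K2 * 4 ^ J0 := by positivity
      omega
    omega
  have ha : 1 ≤ a := le_trans (Nat.one_le_pow _ _ hQ) P.ha
  refine ⟨hh', hh, hQ, ha, ?_, ?_⟩
  · exact le_trans (Nat.mul_pos ha (Nat.one_le_pow 20 Q hQ)) P.hL
  · exact dvd_trans (dvd_trans (by norm_num : 2 ∣ 32) (Dvd.intro _ rfl)) P.hdiv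

theorem cls_facts {u1 u2 J0 : ℕ} (hc : Cls u1 u2 J0) :
    1 ≤ u1 ∧ 1 ≤ u2 ∧ u1 * u2 ≤ 4 ^ J0 := by
  obtain ⟨i, hi, hU⟩ := hc.pow
  have h4i : 1 ≤ 4 ^ i := Nat.one_le_pow _ _ (by norm_num)
  refine ⟨?_, ?_, ?_⟩
  · rcases Nat.eq_zero_or_pos u1 with h0 | h0
    · rw [h0, zero_mul] at hU; omega
    · exact h0
  · rcases Nat.eq_zero_or_pos u2 with h0 | h0
    · rw [h0, mul_zero] at hU; omega
    · exact h0
  · rw [hU]; exact Nat.pow_le_pow_right (by norm_num) hi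

/-- `u2/(1+m)` is between `1/5` and `4`. -/
theorem slope_facts {u1 u2 J0 : ℕ} (hc : Cls u1 u2 J0) {m : ℝ} (h1 : 1 / 4 ≤ m * u1 / u2)
    (h2 : m * u1 / u2 ≤ 4) : 0 < m ∧ (u2 : ℝ) ≤ 4 * (1 + m) ∧ 1 + m ≤ 5 * u2 := by
  obtain ⟨hu1, hu2, -⟩ := cls_facts hc
  have hu1p : (1 : ℝ) ≤ u1 := by exact_mod_cast hu1
  have hu2p : (1 : ℝ) ≤ u2 := by exact_mod_cast hu2
  rw [le_div_iff₀ (by linarith)] at h1
  rw [div_le_iff₀ (by linarith)] at h2
  have hm : 0 < m := by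
    by_contra hcon
    push Not at hcon
    nlinarith
  refine ⟨hm, ?_, ?_⟩
  · rcases hc.one with h | h
    · rw [h] at h1
      push_cast at h1
      linarith
    · rw [h]
      push_cast
      linarith
  · have : m ≤ m * u1 := by nlinarith
    linarith

/-- the identity part. -/
theorem ident_sum (φ : ℕ → ℝ) (A : ℕ → ℕ) (b L : ℕ) (hA : Monotone A) :
    ∑ x ∈ range L, csum φ A b x x = isum φ (A 0) (A L + L * b) := by
  unfold csum isum
  have h : ∀ n : ℕ, ∑ x ∈ range n, ∑ v ∈ Finset.Ico (A x + x * b) (A (x + 1) + (x + 1) * b), φ v =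
      ∑ v ∈ Finset.Ico (A 0) (A n + n * b), φ v := by
    intro n
    induction n with
    | zero => simp
    | succ n ih =>
      rw [Finset.sum_range_succ, ih]
      exact Finset.sum_Ico_consecutive _ (by have := hA (Nat.zero_le n); omega)
        (by have := hA (Nat.le_succ n); nlinarith)
  exact h L

theorem block_arcs {h h' K2 G a L J0 Q u1 u2 : ℕ} (P : Par h h' K2 G a L J0 Q) (hc : Cls u1 u2 J0)
    {b : ℕ} (hb : 1 ≤ b) (Y ta : ℕ → ℕ) (hY : Monotone Y) (pos : ℕ → ℕ → ℕ) (sg : ℕ → ℕ) (k : ℕ)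
    (hpos : ∀ s, pos k s < Dh h / 2) (hsg : Real1 h G a u1 u2 L (pos k) sg)
    (hl1 : 1 / 4 ≤ slo Y (L * b) k * u1 / u2) (hl2 : slo Y (L * b) k * u1 / u2 ≤ 4)
    (V : Finset ℤ) {w N : ℕ} (hw : 1 ≤ w) (hs : Sparse V w N) {Ac : ℝ} (hAc : 3 ≤ Ac) :
    a * h / (4 * L) * ∑ s ∈ range (nsl h G a L u1 u2), kap V (wst h a u1 u2 L b Y ta pos k s) -
      2 * √((a * u2 : ℕ) / L) -
      4 * (a * nsl h G a L u1 u2 / L) * (10 ^ 5 * (1 + √N + N * h / w + h / Ac)) -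
      96 * 10 ^ 5 * Ac * h ^ 2 * Ed Y L b k ≤
    1 / L * ((∑ x ∈ range L, csum (fun v => Th V ((v : ℝ) / ((a * u2) * b : ℕ)))
      (Ak Y ta L b k) b x (sg x)) / (b * (1 + slo Y (L * b) k))) := by
  obtain ⟨hh', hh, hQ, ha, hL, ha2⟩ := par_facts P
  obtain ⟨hu1, hu2, hu⟩ := cls_facts hc
  obtain ⟨hm, hm1, hm2⟩ := slope_facts hc hl1 hl2
  set m := slo Y (L * b) k with hmdef
  set A := Ak Y ta L b k with hAdef
  set n := nsl h G a L u1 u2 with hndef
  obtain ⟨E, hE⟩ : ∃ E : ℝ, E = 10 ^ 5 * (1 + √(N : ℝ) + N * h / w + h / Ac) := ⟨_, rfl⟩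
  rw [← hE]
  have hA : Monotone A := Ak_mono Y ta hY L b k
  have hLp : (0 : ℝ) < L := by exact_mod_cast hL
  have hbp : (0 : ℝ) < b := by exact_mod_cast hb
  have hap : (0 : ℝ) < a := by exact_mod_cast ha
  have hhp : (0 : ℝ) < h := by exact_mod_cast hh
  have hu2p : (0 : ℝ) < u2 := by exact_mod_cast hu2
  have hβ : 1 ≤ a * u2 := Nat.mul_pos ha hu2
  have hβp : (0 : ℝ) < (a * u2 : ℕ) := by exact_mod_cast hβ
  have hwp : (0 : ℝ) < w := by exact_mod_cast hw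
  have hE0 : 0 ≤ E := by
    have : 0 < Ac := by linarith
    rw [hE]
    positivity
  -- identity part
  have hid : -(2 * (b * √((a * u2 : ℕ) * (L * (1 + m))))) ≤
      ∑ x ∈ range L, csum (fun v => Th V ((v : ℝ) / ((a * u2) * b : ℕ))) A b x x := by
    rw [ident_sum _ A b L hA]
    unfold isum
    have h1 := Th_cell V ((a * u2) * b) (Nat.mul_pos hβ hb) (A 0) (A L + L * b - A 0)
    have h2 : A 0 + (A L + L * b - A 0) = A L + L * b := by
      have := hA (Nat.zero_le L)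
      omega
    rw [h2] at h1
    have h3 := (abs_le.1 h1).1
    refine le_trans (le_of_eq ?_) h3
    have h4 : ((A L + L * b - A 0 : ℕ) : ℝ) = b * (L * (1 + m)) := by
      have h5 := slo_block Y ta L b k hL hb
      rw [← hmdef, div_eq_iff hbp.ne'] at h5
      rw [Nat.cast_sub (by have := hA (Nat.zero_le L); omega)]
      push_cast
      simp only [hAdef]
      linarith
    rw [h4]
    have h6 : (((a * u2) * b : ℕ) : ℝ) * (b * (L * (1 + m))) =
        b ^ 2 * ((a * u2 : ℕ) * (L * (1 + m))) := by push_cast; ring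
    rw [h6, Real.sqrt_mul (sq_nonneg _), Real.sqrt_sq hbp.le]
  -- arcs
  have hcond : 10 ^ 12 * h ^ 8 * (u1 * u2) ^ 4 ≤ a := by
    have h1 : 10 ^ 60 * h ^ 4 * 4 ^ J0 ≤ Q := by
      refine le_trans ?_ P.hQ
      have h2 := P.Gpos
      have h3 := P.K2pos
      have h4 : 10 ^ 60 * h ^ 4 * 4 ^ J0 * 1 ≤ 10 ^ 60 * h ^ 4 * 4 ^ J0 * (G * K2) :=
        Nat.mul_le_mul_left _ (Nat.mul_pos h2 h3)
      calc _ = 10 ^ 60 * h ^ 4 * 4 ^ J0 * 1 := by ring
        _ ≤ _ := h4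
        _ = _ := by ring
    have h5 : (10 ^ 60 * h ^ 4 * 4 ^ J0) ^ 4 ≤ Q ^ 4 := Nat.pow_le_pow_left h1 4
    have h6 : Q ^ 4 ≤ Q ^ 20 := Nat.pow_le_pow_right hQ (by norm_num)
    refine le_trans ?_ ((h5.trans h6).trans P.ha)
    have h7 : (u1 * u2) ^ 4 ≤ (4 ^ J0) ^ 4 := Nat.pow_le_pow_left hu 4
    have h8 : h ^ 8 ≤ h ^ 16 := Nat.pow_le_pow_right hh (by norm_num)
    calc 10 ^ 12 * h ^ 8 * (u1 * u2) ^ 4 ≤ 10 ^ 240 * h ^ 16 * (4 ^ J0) ^ 4 :=
          Nat.mul_le_mul (Nat.mul_le_mul (by norm_num) h8) h7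
      _ = _ := by ring
  have harc : ∀ s, (a : ℝ) * u2 * b * ((1 + m) / u2 * h / 4 *
      kap V (wst h a u1 u2 L b Y ta pos k s) - E -
      10 ^ 5 * Ac * h ^ 2 * arcE A b m a u1 u2 (arcA h a u1 u2 (pos k) s)
        (arcB h a u1 u2 (pos k) s) (Mh h a)) ≤
      arcD (fun v => Th V ((v : ℝ) / ((a * u2) * b : ℕ))) A b (arcA h a u1 u2 (pos k) s)
        (arcB h a u1 u2 (pos k) s) (Mh h a) := by
    intro s
    have h1 := arc_lower hh ha2 hcond hb hc.one hu1 hu2 hAc A hA hl1 hl2 V hw hs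
      (a0 := (s * Dh h + pos k s) * a + if u1 = 1 then 0 else 34 * h ^ 2 * a + 2 * (s % (u1 * u2)) + 1)
      (b0 := (s * Dh h + pos k s) * a + if u1 = 1 then 34 * h ^ 2 * a + 2 * (s % (u1 * u2)) + 1 else 0)
    have e1 : (fun v : ℕ => Th V ((v : ℝ) / ((a * u2) * b : ℕ))) =
        fun v : ℕ => Th V ((v : ℝ) / (a * u2 * b)) := by
      funext v
      push_cast
      rfl
    rw [e1]
    rw [← hE] at h1
    exact h1
  have hsum : (a : ℝ) * u2 * b * ((1 + m) / u2 * h / 4 *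
      ∑ s ∈ range n, kap V (wst h a u1 u2 L b Y ta pos k s) - n * E -
      10 ^ 5 * Ac * h ^ 2 * (6 / a * (4 * L * Ed Y L b k))) ≤
      ∑ s ∈ range n, arcD (fun v => Th V ((v : ℝ) / ((a * u2) * b : ℕ))) A b
        (arcA h a u1 u2 (pos k) s) (arcB h a u1 u2 (pos k) s) (Mh h a) := by
    refine le_trans ?_ (Finset.sum_le_sum fun s _ => harc s)
    rw [← Finset.mul_sum]
    refine mul_le_mul_of_nonneg_left ?_ (by positivity)
    have e3 : ∑ s ∈ range n, ((1 + m) / u2 * h / 4 *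
        kap V (wst h a u1 u2 L b Y ta pos k s) - E -
        10 ^ 5 * Ac * h ^ 2 * arcE A b m a u1 u2 (arcA h a u1 u2 (pos k) s)
        (arcB h a u1 u2 (pos k) s) (Mh h a)) = (1 + m) / u2 * h / 4 *
        ∑ s ∈ range n, kap V (wst h a u1 u2 L b Y ta pos k s) - n * E -
        10 ^ 5 * Ac * h ^ 2 * ∑ s ∈ range n, arcE A b m a u1 u2 (arcA h a u1 u2 (pos k) s)
        (arcB h a u1 u2 (pos k) s) (Mh h a) := by
      rw [Finset.sum_sub_distrib, Finset.sum_sub_distrib, Finset.mul_sum, Finset.mul_sum,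
        Finset.sum_const, card_range, nsmul_eq_mul]
    rw [e3]
    have hnn : (0 : ℝ) ≤ 10 ^ 5 * Ac * h ^ 2 := by
      have : 0 < Ac := by linarith
      positivity
    refine sub_le_sub_left (mul_le_mul_of_nonneg_left ?_ hnn) _
    refine (arcE_sum P hc (pos k) hpos A b m).trans ?_
    refine mul_le_mul_of_nonneg_left ?_ (by positivity)
    have h1 := psi_energy L hL (fun x => ((A (x + 1) : ℝ) - A x) / b) m (Ed Y L b k / 2)
      (fun x _ => div_nonneg (by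
        have : (A x : ℝ) ≤ A (x + 1) := by exact_mod_cast hA (Nat.le_succ x)
        linarith) hbp.le) hm (by
        rw [hmdef, ← slo_block Y ta L b k hL hb, ← Finset.sum_div]
        congr 1
        exact Finset.sum_range_sub (fun x : ℕ => (A x : ℝ)) L) (Ed_eq Y ta hY L b k hL hb hm)
    have e2 : ∀ x, du A b m x = ((A (x + 1) : ℝ) - A x) / b / m := fun x => by
      unfold du
      rw [div_div]
    simp only [e2]
    refine h1.trans (le_of_eq ?_)
    ring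
  have hreal := hsg.2.2 (fun v => Th V ((v : ℝ) / ((a * u2) * b : ℕ))) A b
  rw [hreal]
  set Kp := ∑ s ∈ range n, kap V (wst h a u1 u2 L b Y ta pos k s) with hKp
  -- final computation
  have hm1p : 0 < 1 + m := by linarith
  have hden : 0 < (b : ℝ) * (1 + m) := mul_pos hbp hm1p
  have hEd0 : 0 ≤ Ed Y L b k := by
    unfold Ed
    exact mul_nonneg (by positivity) (Finset.sum_nonneg fun _ _ => sq_nonneg _)
  have hlow := add_le_add hid hsum
  have h1 : 1 / (L : ℝ) * ((-(2 * (b * √((a * u2 : ℕ) * (L * (1 + m))))) +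
      (a : ℝ) * u2 * b * ((1 + m) / u2 * h / 4 * Kp - n * E -
      10 ^ 5 * Ac * h ^ 2 * (6 / a * (4 * L * Ed Y L b k)))) / (b * (1 + m))) ≤
      1 / L * ((∑ x ∈ range L, csum (fun v => Th V ((v : ℝ) / ((a * u2) * b : ℕ))) A b x x +
        ∑ s ∈ range n, arcD (fun v => Th V ((v : ℝ) / ((a * u2) * b : ℕ))) A b
        (arcA h a u1 u2 (pos k) s) (arcB h a u1 u2 (pos k) s) (Mh h a)) / (b * (1 + m))) :=
    mul_le_mul_of_nonneg_left (div_le_div_of_nonneg_right hlow hden.le) (by positivity)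
  refine le_trans ?_ h1
  have h2 : 1 / (L : ℝ) * ((-(2 * (b * √((a * u2 : ℕ) * (L * (1 + m))))) +
      (a : ℝ) * u2 * b * ((1 + m) / u2 * h / 4 * Kp - n * E -
      10 ^ 5 * Ac * h ^ 2 * (6 / a * (4 * L * Ed Y L b k)))) / (b * (1 + m))) =
      a * h / (4 * L) * Kp - 2 * (√((a * u2 : ℕ) * (L * (1 + m))) / (L * (1 + m))) -
      (u2 / (1 + m)) * (a * n / L) * E -
      (u2 / (1 + m)) * (24 * 10 ^ 5 * Ac * h ^ 2 * Ed Y L b k) := by
    field_simp
    ring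
  rw [h2]
  have h3 : (u2 : ℝ) / (1 + m) ≤ 4 := by rw [div_le_iff₀ hm1p]; exact hm1
  have h4 : √((a * u2 : ℕ) * (L * (1 + m))) / (L * (1 + m)) ≤ √((a * u2 : ℕ) / L) := by
    have h5 : √(((a * u2 : ℕ) : ℝ) * (L * (1 + m))) / (L * (1 + m)) =
        √((a * u2 : ℕ) / (L * (1 + m))) := by
      rw [show ((a * u2 : ℕ) : ℝ) / (L * (1 + m)) =
        (a * u2 : ℕ) * (L * (1 + m)) / (L * (1 + m)) ^ 2 by field_simp,
        Real.sqrt_div (by positivity), Real.sqrt_sq (by positivity)]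
    rw [h5]
    refine Real.sqrt_le_sqrt ?_
    refine div_le_div_of_nonneg_left hβp.le hLp ?_
    nlinarith
  have h5 : (u2 : ℝ) / (1 + m) * (a * n / L) * E ≤ 4 * (a * n / L) * E :=
    mul_le_mul_of_nonneg_right (mul_le_mul_of_nonneg_right h3 (by positivity)) hE0
  have h6 : (u2 : ℝ) / (1 + m) * (24 * 10 ^ 5 * Ac * h ^ 2 * Ed Y L b k) ≤
      4 * (24 * 10 ^ 5 * Ac * h ^ 2 * Ed Y L b k) :=
    mul_le_mul_of_nonneg_right h3 (mul_nonneg (by
      have : 0 < Ac := by linarith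
      positivity) hEd0)
  linarith

end Pool.Agent.Lib.HBP.L
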