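import Mathlib
import Pool.Agent.Lib.HBP.L.BlockArcs

/-!
HAP part B, section LOCAL (helper69): the load of the blocks `𝒦` and comparison of their weights.
-/

open Finset

namespace Pool.Agent.Lib.HBP.L

/-- slopes of matched blocks differ by a factor at most 16. -/
theorem slope_ratio {u1 u2 J0 : ℕ} (hc : Cls u1 u2 J0) {m m' : ℝ} (h1 : 1 / 4 ≤ m * u1 / u2)
    (h2 : m' * u1 / u2 ≤ 4) : m' ≤ 16 * m := by
  obtain ⟨hu1, hu2, -⟩ := cls_facts hc
  have hu1p : (1 : ℝ) ≤ u1 := by exact_mod_cast hu1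
  have hu2p : (1 : ℝ) ≤ u2 := by exact_mod_cast hu2
  rw [le_div_iff₀ (by linarith)] at h1
  rw [div_le_iff₀ (by linarith)] at h2
  have h3 : m' * u1 ≤ 16 * m * u1 := by linarith
  exact le_of_mul_le_mul_right h3 (by linarith)

/-- the capacity of a window. -/
theorem window_card (C : Finset ℕ) (w : ℕ → ℕ) (hw : Set.InjOn w C) (S : ℕ) (B : Finset ℕ)
    (v X : ℕ) (h1 : ∀ q ∈ C, q / S ∈ B → v ≤ w q + X) (h2 : ∀ q ∈ C, q / S ∈ B → w q < v + X) :
    ∑ k ∈ B, (cnt C S k : ℝ) ≤ 2 * X := by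
  rw [card_chn]
  have h3 : (chn C S B).card = ((chn C S B).image w).card := by
    rw [Finset.card_image_of_injOn]
    exact hw.mono fun q hq => (Finset.mem_filter.1 hq).1
  have h4 : ((chn C S B).image w).card ≤ (Finset.Ico (v - X) (v + X)).card := by
    refine Finset.card_le_card fun z hz => ?_
    rw [Finset.mem_image] at hz
    obtain ⟨q, hq, rfl⟩ := hz
    obtain ⟨hqC, hqB⟩ := Finset.mem_filter.1 hq
    rw [Finset.mem_Ico]
    have := h1 q hqC hqB
    have := h2 q hqC hqB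
    omega
  rw [Nat.card_Ico] at h4
  have h5 : (chn C S B).card ≤ 2 * X := by omega
  exact_mod_cast h5

/-- the load of the blocks of density `τ`. -/
theorem load {L b u1 u2 J0 : ℕ} (hc : Cls u1 u2 J0) (hL : 0 < L) (hb : 0 < b) (Y ta : ℕ → ℕ)
    (hY : Monotone Y) (sg : ℕ → ℕ → ℕ) (C : Finset ℕ) (w : ℕ → ℕ) (hw : Set.InjOn w C)
    (hr : InRange Y ta sg L b C w) (𝒦 : Finset ℕ) (hsg : ∀ k ∈ 𝒦, ∀ x < L, sg k x < L)
    (hlam : ∀ k ∈ 𝒦, 1 / 4 ≤ slo Y (L * b) k * u1 / u2 ∧ slo Y (L * b) k * u1 / u2 ≤ 4)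
    (τ : ℝ) (hτ : 0 < τ) (hK1 : ∀ k ∈ 𝒦, τ * ((1 + slo Y (L * b) k) * (L * b)) ≤ cnt C (L * b) k)
    (v : ℕ) :
    ((𝒦.filter fun k => Ak Y ta L b k 0 ≤ v + L * b ∧ v ≤ Ak Y ta L b k L + 2 * (L * b)).card : ℝ)
      ≤ 32 / τ := by
  set B := 𝒦.filter fun k => Ak Y ta L b k 0 ≤ v + L * b ∧ v ≤ Ak Y ta L b k L + 2 * (L * b) with hB
  rcases B.eq_empty_or_nonempty with h0 | h0
  · rw [h0]
    simp only [Finset.card_empty, Nat.cast_zero]
    positivity
  obtain ⟨k1, hk1, hmax⟩ := Finset.exists_max_image B (fun k => slo Y (L * b) k) h0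
  have hBK : ∀ k ∈ B, k ∈ 𝒦 := fun k hk => (Finset.mem_filter.1 hk).1
  have hLb : 0 < L * b := Nat.mul_pos hL hb
  have hLbp : (0 : ℝ) < (L : ℝ) * b := by exact_mod_cast hLb
  have hbp : (0 : ℝ) < b := by exact_mod_cast hb
  have hdiff : ∀ k, ((Ak Y ta L b k L : ℝ) - Ak Y ta L b k 0) = slo Y (L * b) k * (L * b) := by
    intro k
    have h5 := slo_block Y ta L b k hL hb
    rw [div_eq_iff hbp.ne'] at h5
    rw [h5]
    ring
  have hmono : ∀ k, Ak Y ta L b k 0 ≤ Ak Y ta L b k L := fun k => Ak_mono Y ta hY L b k (Nat.zero_le L)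
  set X := (Ak Y ta L b k1 L - Ak Y ta L b k1 0) + 2 * (L * b) with hX
  have hXr : (X : ℝ) = (slo Y (L * b) k1 + 2) * (L * b) := by
    rw [hX]
    push_cast [Nat.cast_sub (hmono k1)]
    rw [hdiff]
    ring
  have hle : ∀ k ∈ B, Ak Y ta L b k L + Ak Y ta L b k1 0 ≤ Ak Y ta L b k1 L + Ak Y ta L b k 0 := by
    intro k hk
    have h1 := mul_le_mul_of_nonneg_right (hmax k hk) hLbp.le
    rw [← hdiff, ← hdiff] at h1
    have h2 : ((Ak Y ta L b k L + Ak Y ta L b k1 0 : ℕ) : ℝ) ≤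
        ((Ak Y ta L b k1 L + Ak Y ta L b k 0 : ℕ) : ℝ) := by
      push_cast
      linarith
    exact_mod_cast h2
  have hrange : ∀ q ∈ C, q / (L * b) ∈ B → Ak Y ta L b (q / (L * b)) 0 ≤ w q ∧
      w q < Ak Y ta L b (q / (L * b)) L + L * b := by
    intro q hq hqB
    have hdiv : q / (L * b) = q / b / L := by rw [Nat.div_div_eq_div_mul, Nat.mul_comm]
    rw [hdiv] at hqB ⊢
    have h1 := hr q hq
    have hx : q / b % L < L := Nat.mod_lt _ hL
    have h2 := Ak_mono Y ta hY L b (q / b / L) (Nat.zero_le (q / b % L))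
    have h3 := Ak_mono Y ta hY L b (q / b / L) (show q / b % L + 1 ≤ L from hx)
    have h4 := hsg _ (hBK _ hqB) _ hx
    have h5 : (sg (q / b / L) (q / b % L) + 1) * b ≤ L * b := Nat.mul_le_mul_right _ h4
    omega
  have hwin := window_card C w hw (L * b) B v X
    (fun q hq hqB => by
      have h1 := hrange q hq hqB
      have h2 := (Finset.mem_filter.1 hqB).2
      have h3 := hle _ hqB
      have h4 := hmono k1
      have h5 := hmono (q / (L * b))
      omega)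
    (fun q hq hqB => by
      have h1 := hrange q hq hqB
      have h2 := (Finset.mem_filter.1 hqB).2
      have h3 := hle _ hqB
      have h4 := hmono k1
      have h5 := hmono (q / (L * b))
      omega)
  rw [hXr] at hwin
  -- lower bound of the left side
  have hk1pos := slope_facts hc (hlam k1 (hBK k1 hk1)).1 (hlam k1 (hBK k1 hk1)).2
  have hlow : ∀ k ∈ B, τ * ((slo Y (L * b) k1 + 2) / 16 * (L * b)) ≤ (cnt C (L * b) k : ℝ) := by
    intro k hk
    refine le_trans ?_ (hK1 k (hBK k hk))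
    have h1 := slope_ratio hc (hlam k (hBK k hk)).1 (hlam k1 (hBK k1 hk1)).2
    refine mul_le_mul_of_nonneg_left (mul_le_mul_of_nonneg_right ?_ hLbp.le) hτ.le
    linarith
  have h6 := Finset.sum_le_sum hlow
  rw [Finset.sum_const, nsmul_eq_mul] at h6
  have h7 := h6.trans hwin
  have h8 : 0 < (slo Y (L * b) k1 + 2) * (L * b) := mul_pos (by linarith [hk1pos.1]) hLbp
  rw [le_div_iff₀ hτ]
  have h9 : (B.card : ℝ) * τ * ((slo Y (L * b) k1 + 2) * (L * b)) ≤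
      32 * ((slo Y (L * b) k1 + 2) * (L * b)) := by nlinarith
  exact le_of_mul_le_mul_right h9 h8

/-- all blocks of `𝒦` have a comparable number of elements. -/
theorem cnt_compare {L b u1 u2 J0 : ℕ} (hc : Cls u1 u2 J0) (Y : ℕ → ℕ) (C 𝒦 : Finset ℕ)
    (hlam : ∀ k ∈ 𝒦, 1 / 4 ≤ slo Y (L * b) k * u1 / u2 ∧ slo Y (L * b) k * u1 / u2 ≤ 4)
    (τ : ℝ) (hτ : 0 < τ) (hK1 : ∀ k ∈ 𝒦, τ * ((1 + slo Y (L * b) k) * (L * b)) ≤ cnt C (L * b) k)
    (hK2 : ∀ k ∈ 𝒦, (cnt C (L * b) k : ℝ) ≤ 2 * (τ * ((1 + slo Y (L * b) k) * (L * b)))) :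
    ∀ k ∈ 𝒦, ∑ k' ∈ 𝒦, (cnt C (L * b) k' : ℝ) ≤ 𝒦.card * (32 * cnt C (L * b) k) := by
  intro k hk
  have h : ∀ k' ∈ 𝒦, (cnt C (L * b) k' : ℝ) ≤ 32 * cnt C (L * b) k := by
    intro k' hk'
    have h1 := hK2 k' hk'
    have h2 := hK1 k hk
    have h3 := slope_ratio hc (hlam k hk).1 (hlam k' hk').2
    have h4 : τ * ((1 + slo Y (L * b) k') * (L * b)) ≤ 16 * (τ * ((1 + slo Y (L * b) k) * (L * b))) := by
      have h5 : 0 ≤ (L : ℝ) * b := by positivity
      have h6 : (1 + slo Y (L * b) k') * ((L : ℝ) * b) ≤ 16 * (1 + slo Y (L * b) k) * (L * b) :=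
        mul_le_mul_of_nonneg_right (by linarith) h5
      calc τ * ((1 + slo Y (L * b) k') * (L * b)) ≤ τ * (16 * (1 + slo Y (L * b) k) * (L * b)) :=
            mul_le_mul_of_nonneg_left h6 hτ.le
        _ = _ := by ring
    linarith
  have h1 := Finset.sum_le_sum h
  rwa [Finset.sum_const, nsmul_eq_mul] at h1

/-- `nsl` is at least half of `L/(Dh a)`. -/
theorem nsl_lower {h h' K2 G a L J0 Q u1 u2 : ℕ} (P : Par h h' K2 G a L J0 Q) (hc : Cls u1 u2 J0) :
    (1 : ℝ) / (2 * (10 ^ 26 * (h : ℝ) ^ 3)) ≤ a * nsl h G a L u1 u2 / L := by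
  obtain ⟨hh', hh, hQ, ha, hL, ha2⟩ := par_facts P
  obtain ⟨hu1, hu2, hu⟩ := cls_facts hc
  have hG := P.Gpos
  have hLp : (0 : ℝ) < L := by exact_mod_cast hL
  have hap : (0 : ℝ) < a := by exact_mod_cast ha
  have hhp : (0 : ℝ) < h := by exact_mod_cast hh
  have hDpos : 0 < Dh h * a := Nat.mul_pos (by unfold Dh; positivity) ha
  -- natural number inequality
  have key : L ≤ 2 * (Dh h * a) * nsl h G a L u1 u2 := by
    set q := L / (Dh h * a) with hq
    have h1 : L < Dh h * a * (q + 1) := Nat.lt_mul_div_succ L hDpos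
    have h2 : q - (u1 * u2 + 3) < nsl h G a L u1 u2 + G := by
      have h3 := Nat.lt_mul_div_succ (q - (u1 * u2 + 3)) hG
      rw [mul_add, mul_one] at h3
      exact h3
    -- q is large
    have h3 : 2 * (u1 * u2 + G + 4) ≤ q := by
      rw [hq, Nat.le_div_iff_mul_le hDpos]
      refine le_trans ?_ P.hL
      have h4 : 10 ^ 60 * h ^ 4 * G * 4 ^ J0 ≤ Q := by
        refine le_trans ?_ P.hQ
        have h3 := P.K2pos
        calc _ = 10 ^ 60 * h ^ 4 * G * 1 * 4 ^ J0 := by ring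
          _ ≤ _ := Nat.mul_le_mul_right _ (Nat.mul_le_mul_left _ h3)
      have h5 : 1 ≤ 4 ^ J0 := Nat.one_le_pow _ _ (by norm_num)
      have h6 : 1 ≤ h ^ 4 := Nat.one_le_pow _ _ hh
      have h7 : h ^ 3 ≤ h ^ 4 := Nat.pow_le_pow_right hh (by norm_num)
      have h8 : u1 * u2 + G + 4 ≤ 6 * (G * 4 ^ J0) := by nlinarith
      have h9 : Q * Q ≤ Q ^ 20 := by
        calc Q * Q = Q ^ 2 := by ring
          _ ≤ Q ^ 20 := Nat.pow_le_pow_right hQ (by norm_num)
      have h10 : Q ≤ Q * Q := Nat.le_mul_of_pos_left _ hQ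
      calc 2 * (u1 * u2 + G + 4) * (Dh h * a) ≤ 2 * (6 * (G * 4 ^ J0)) * (10 ^ 26 * h ^ 4 * a) := by
            refine Nat.mul_le_mul (Nat.mul_le_mul_left _ h8) ?_
            unfold Dh
            exact Nat.mul_le_mul_right _ (Nat.mul_le_mul_left _ h7)
        _ = a * (12 * 10 ^ 26 * h ^ 4 * G * 4 ^ J0) := by ring
        _ ≤ a * (10 ^ 60 * h ^ 4 * G * 4 ^ J0) := by
            refine Nat.mul_le_mul_left _ ?_
            refine Nat.mul_le_mul_right _ (Nat.mul_le_mul_right _ (Nat.mul_le_mul_right _ (by norm_num)))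
        _ ≤ a * Q := Nat.mul_le_mul_left _ h4
        _ ≤ a * Q ^ 20 := Nat.mul_le_mul_left _ (h10.trans h9)
    have h4 : q + 1 ≤ 2 * nsl h G a L u1 u2 := by omega
    calc L ≤ Dh h * a * (q + 1) := h1.le
      _ ≤ Dh h * a * (2 * nsl h G a L u1 u2) := Nat.mul_le_mul_left _ h4
      _ = _ := by ring
  have key2 : (L : ℝ) ≤ 2 * ((10 ^ 26 * (h : ℝ) ^ 3) * a) * nsl h G a L u1 u2 := by
    have : (L : ℝ) ≤ ((2 * (Dh h * a) * nsl h G a L u1 u2 : ℕ) : ℝ) := by exact_mod_cast key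
    unfold Dh at this
    push_cast at this
    exact this.trans (le_of_eq (by norm_num))
  rw [div_le_div_iff₀ (by positivity) hLp]
  linarith

end Pool.Agent.Lib.HBP.L
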